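import Mathlib

/-!
Project GM: means of `det(A+B)` over permutations of the eigenvalues of a normal 4×4 matrix.
Basic definitions, multi-affinity and the rank two formula.
-/

set_option autoImplicit false

namespace Pool.Agent.Helper2.GM

open Matrix Complex Equiv

abbrev M4 := Matrix (Fin 4) (Fin 4) ℂ

abbrev Pt := (Fin 4 → ℂ) × (Fin 4 → ℂ)

/-- `det(diag(a) + U diag(b) U*)`. -/
noncomputable def DD (U : M4) (a b : Fin 4 → ℂ) : ℂ := (diagonal a + U * diagonal b * star U).det

/-- The product belonging to the permutation `σ`. -/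
noncomputable def Z (σ : Perm (Fin 4)) : Pt → ℂ := fun x => ∏ i, (x.1 i + x.2 (σ i))

/-- The convex hull of the 24 functions. -/
def HZ : Set (Pt → ℂ) := convexHull ℝ (Set.range Z)

theorem Z_mem (σ : Perm (Fin 4)) : Z σ ∈ HZ := subset_convexHull ℝ _ ⟨σ, rfl⟩

theorem convex_HZ : Convex ℝ HZ := convex_convexHull ℝ _

/-- `DD` is affine in every variable. -/
theorem DD_affine (U : M4) (a b : Fin 4 → ℂ) (i : Fin 4) (t : ℂ) :
    DD U (Function.update a i t) b
      = (1 - t) * DD U (Function.update a i 0) b + t * DD U (Function.update a i 1) b := by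
  unfold DD
  set B : M4 := U * diagonal b * star U
  set M : M4 := diagonal (Function.update a i 0) + B with hM
  have e : ∀ t : ℂ, diagonal (Function.update a i t) + B
      = M.updateRow i (t • (Pi.single i 1 : Fin 4 → ℂ) + M i) := by
    intro t
    ext k j
    by_cases hi : k = i
    · subst hi
      rw [updateRow_self]
      by_cases hj : j = k
      · subst hj
        simp [hM]
      · have hj' : k ≠ j := fun h => hj h.symm
        simp [hM, hj, hj']
    · rw [updateRow_ne hi]
      by_cases hj : k = j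
      · subst hj
        simp [hM, hi]
      · simp [hM, diagonal_apply_ne _ hj]
  have e1 : ∀ t : ℂ, (diagonal (Function.update a i t) + B).det
      = t * (M.updateRow i (Pi.single i 1)).det + M.det := by
    intro t
    rw [e, det_updateRow_add, det_updateRow_smul, updateRow_eq_self]
  rw [e1 t, e1 1]
  ring

/-- rank two update of a diagonal 4×4 matrix -/
theorem det_rank_two (c x y x' y' : Fin 4 → ℂ) (s s' : ℂ) :
    (Matrix.of fun j l : Fin 4 => (if j = l then c j else 0) + s * (x j * y l)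
        + s' * (x' j * y' l) : M4).det
      = c 0 * c 1 * c 2 * c 3
        + s * (x 0 * y 0 * (c 1 * c 2 * c 3) + x 1 * y 1 * (c 0 * c 2 * c 3)
          + x 2 * y 2 * (c 0 * c 1 * c 3) + x 3 * y 3 * (c 0 * c 1 * c 2))
        + s' * (x' 0 * y' 0 * (c 1 * c 2 * c 3) + x' 1 * y' 1 * (c 0 * c 2 * c 3)
          + x' 2 * y' 2 * (c 0 * c 1 * c 3) + x' 3 * y' 3 * (c 0 * c 1 * c 2))
        + s * s' * ((x 0 * x' 1 - x 1 * x' 0) * (y 0 * y' 1 - y 1 * y' 0) * (c 2 * c 3)
          + (x 0 * x' 2 - x 2 * x' 0) * (y 0 * y' 2 - y 2 * y' 0) * (c 1 * c 3)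
          + (x 0 * x' 3 - x 3 * x' 0) * (y 0 * y' 3 - y 3 * y' 0) * (c 1 * c 2)
          + (x 1 * x' 2 - x 2 * x' 1) * (y 1 * y' 2 - y 2 * y' 1) * (c 0 * c 3)
          + (x 1 * x' 3 - x 3 * x' 1) * (y 1 * y' 3 - y 3 * y' 1) * (c 0 * c 2)
          + (x 2 * x' 3 - x 3 * x' 2) * (y 2 * y' 3 - y 3 * y' 2) * (c 0 * c 1)) := by
  rw [Matrix.det_succ_row_zero]
  simp only [Fin.sum_univ_succ, Matrix.det_fin_three, Matrix.submatrix_apply, Matrix.of_apply,
    Fin.succAbove, Fin.sum_univ_zero]
  simp [Fin.ext_iff]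
  ring

end Pool.Agent.Helper2.GM
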