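import Pool.Agent.Helper2.GM.Cone

/-!
Project GM: the mean of two relabellings that differ by a 3-cycle.
-/

set_option autoImplicit false

namespace Pool.Agent.Helper2.GM

open Matrix Complex Equiv

set_option maxHeartbeats 4000000 in
theorem C3P_mem (U : M4) (hU : U ∈ unitaryGroup (Fin 4) ℂ) :
    (fun x : Pt => (G U x.2 (x.1 0) (x.1 1) (x.1 2) (x.1 3)
      + G U x.2 (x.1 0) (x.1 2) (x.1 3) (x.1 1)) / 2) ∈ HZ := by
  obtain ⟨f1, n1, s1, r1, z1⟩ := exists_f U hU 1 (by decide)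
  obtain ⟨f2, n2, s2, r2, z2⟩ := exists_f U hU 2 (by decide)
  obtain ⟨f3, n3, s3, r3, z3⟩ := exists_f U hU 3 (by decide)
  have C01 := colsum_mm' U hU 0 1 (by decide)
  have S101 := s1 0 1
  have S201 := s2 0 1
  have S301 := s3 0 1
  have C02 := colsum_mm' U hU 0 2 (by decide)
  have S102 := s1 0 2
  have S202 := s2 0 2
  have S302 := s3 0 2
  have C03 := colsum_mm' U hU 0 3 (by decide)
  have S103 := s1 0 3
  have S203 := s2 0 3
  have S303 := s3 0 3
  have C12 := colsum_mm' U hU 1 2 (by decide)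
  have S112 := s1 1 2
  have S212 := s2 1 2
  have S312 := s3 1 2
  have C13 := colsum_mm' U hU 1 3 (by decide)
  have S113 := s1 1 3
  have S213 := s2 1 3
  have S313 := s3 1 3
  have C23 := colsum_mm' U hU 2 3 (by decide)
  have S123 := s1 2 3
  have S223 := s2 2 3
  have S323 := s3 2 3
  have R10 := r1 0
  rw [z1 0] at R10
  have R20 := r2 0
  rw [z2 0] at R20
  have R30 := r3 0
  rw [z3 0] at R30
  have R11 := r1 1
  rw [z1 1] at R11
  have R21 := r2 1
  rw [z2 1] at R21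
  have R31 := r3 1
  rw [z3 1] at R31
  have R12 := r1 2
  rw [z1 2] at R12
  have R22 := r2 2
  rw [z2 2] at R22
  have R32 := r3 2
  rw [z3 2] at R32
  have R13 := r1 3
  rw [z1 3] at R13
  have R23 := r2 3
  rw [z2 3] at R23
  have R33 := r3 3
  rw [z3 3] at R33
  have N101 := n1 0 1
  have N102 := n1 0 2
  have N103 := n1 0 3
  have N201 := n2 0 1
  have N202 := n2 0 2
  have N203 := n2 0 3
  have N301 := n3 0 1
  have N302 := n3 0 2
  have N303 := n3 0 3
  have N110 := n1 1 0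
  have N112 := n1 1 2
  have N113 := n1 1 3
  have N210 := n2 1 0
  have N212 := n2 1 2
  have N213 := n2 1 3
  have N310 := n3 1 0
  have N312 := n3 1 2
  have N313 := n3 1 3
  have N120 := n1 2 0
  have N121 := n1 2 1
  have N123 := n1 2 3
  have N220 := n2 2 0
  have N221 := n2 2 1
  have N223 := n2 2 3
  have N320 := n3 2 0
  have N321 := n3 2 1
  have N323 := n3 2 3
  have N130 := n1 3 0
  have N131 := n1 3 1
  have N132 := n1 3 2
  have N230 := n2 3 0
  have N231 := n2 3 1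
  have N232 := n2 3 2
  have N330 := n3 3 0
  have N331 := n3 3 1
  have N332 := n3 3 2
  obtain ⟨w01, w02, w03, w04, w05, w06, q01, q02, q03, q04, q05, q06, e011, e012, e013, e021, e022, e023, e031, e032, e033⟩ := birk3 ((f1 0 1 + f2 0 1 + f3 0 1) / 6 - f2 0 1 / 2 + P U 0 0 / 3) ((f1 0 2 + f2 0 2 + f3 0 2) / 6 - f2 0 2 / 2 + P U 0 0 / 3) ((f1 0 3 + f2 0 3 + f3 0 3) / 6 - f2 0 3 / 2 + P U 0 0 / 3) ((f1 0 1 + f2 0 1 + f3 0 1) / 6 - f3 0 1 / 2 + P U 0 0 / 3) ((f1 0 2 + f2 0 2 + f3 0 2) / 6 - f3 0 2 / 2 + P U 0 0 / 3) ((f1 0 3 + f2 0 3 + f3 0 3) / 6 - f3 0 3 / 2 + P U 0 0 / 3) ((f1 0 1 + f2 0 1 + f3 0 1) / 6 - f1 0 1 / 2 + P U 0 0 / 3) ((f1 0 2 + f2 0 2 + f3 0 2) / 6 - f1 0 2 / 2 + P U 0 0 / 3) ((f1 0 3 + f2 0 3 + f3 0 3) / 6 - f1 0 3 / 2 + P U 0 0 / 3) (P U 0 0)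
    (by clear * - R10 R20 R30 N101 N102 N103 N201 N202 N203 N301 N302 N303; linarith) (by clear * - R10 R20 R30 N101 N102 N103 N201 N202 N203 N301 N302 N303; linarith) (by clear * - R10 R20 R30 N101 N102 N103 N201 N202 N203 N301 N302 N303; linarith) (by clear * - R10 R20 R30 N101 N102 N103 N201 N202 N203 N301 N302 N303; linarith) (by clear * - R10 R20 R30 N101 N102 N103 N201 N202 N203 N301 N302 N303; linarith) (by clear * - R10 R20 R30 N101 N102 N103 N201 N202 N203 N301 N302 N303; linarith) (by clear * - R10 R20 R30 N101 N102 N103 N201 N202 N203 N301 N302 N303; linarith) (by clear * - R10 R20 R30 N101 N102 N103 N201 N202 N203 N301 N302 N303; linarith) (by clear * - R10 R20 R30 N101 N102 N103 N201 N202 N203 N301 N302 N303; linarith) (by clear * - R10 R20 R30 N101 N102 N103 N201 N202 N203 N301 N302 N303; linarith) (by clear * - R10 R20 R30 N101 N102 N103 N201 N202 N203 N301 N302 N303; linarith) (by clear * - R10 R20 R30 N101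 N102 N103 N201 N202 N203 N301 N302 N303; linarith) (by clear * - R10 R20 R30 N101 N102 N103 N201 N202 N203 N301 N302 N303; linarith) (by clear * - R10 R20 R30 N101 N102 N103 N201 N202 N203 N301 N302 N303; linarith) (by clear * - R10 R20 R30 N101 N102 N103 N201 N202 N203 N301 N302 N303; linarith)
  obtain ⟨w11, w12, w13, w14, w15, w16, q11, q12, q13, q14, q15, q16, e110, e112, e113, e120, e122, e123, e130, e132, e133⟩ := birk3 ((f1 1 0 + f2 1 0 + f3 1 0) / 6 - f2 1 0 / 2 + P U 0 1 / 3) ((f1 1 2 + f2 1 2 + f3 1 2) / 6 - f2 1 2 / 2 + P U 0 1 / 3) ((f1 1 3 + f2 1 3 + f3 1 3) / 6 - f2 1 3 / 2 + P U 0 1 / 3) ((f1 1 0 + f2 1 0 + f3 1 0) / 6 - f3 1 0 / 2 + P U 0 1 / 3) ((f1 1 2 + f2 1 2 + f3 1 2) / 6 - f3 1 2 / 2 + P U 0 1 / 3) ((f1 1 3 + f2 1 3 + f3 1 3) / 6 - f3 1 3 / 2 + P U 0 1 / 3) ((f1 1 0 + f2 1 0 + f3 1 0) / 6 - f1 1 0 / 2 + P U 0 1 / 3) ((f1 1 2 + f2 1 2 + f3 1 2) / 6 - f1 1 2 / 2 + P U 0 1 / 3) ((f1 1 3 + f2 1 3 + f3 1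 3) / 6 - f1 1 3 / 2 + P U 0 1 / 3) (P U 0 1)
    (by clear * - R11 R21 R31 N110 N112 N113 N210 N212 N213 N310 N312 N313; linarith) (by clear * - R11 R21 R31 N110 N112 N113 N210 N212 N213 N310 N312 N313; linarith) (by clear * - R11 R21 R31 N110 N112 N113 N210 N212 N213 N310 N312 N313; linarith) (by clear * - R11 R21 R31 N110 N112 N113 N210 N212 N213 N310 N312 N313; linarith) (by clear * - R11 R21 R31 N110 N112 N113 N210 N212 N213 N310 N312 N313; linarith) (by clear * - R11 R21 R31 N110 N112 N113 N210 N212 N213 N310 N312 N313; linarith) (by clear * - R11 R21 R31 N110 N112 N113 N210 N212 N213 N310 N312 N313; linarith) (by clear * - R11 R21 R31 N110 N112 N113 N210 N212 N213 N310 N312 N313; linarith) (by clear * - R11 R21 R31 N110 N112 N113 N210 N212 N213 N310 N312 N313; linarith) (by clear * - R11 R21 R31 N110 N112 N113 N210 N212 N213 N310 N312 N313; linarith) (by clear * - R11 R21 R31 N110 N112 N113 N210 N212 N213 N310 N312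 N313; linarith) (by clear * - R11 R21 R31 N110 N112 N113 N210 N212 N213 N310 N312 N313; linarith) (by clear * - R11 R21 R31 N110 N112 N113 N210 N212 N213 N310 N312 N313; linarith) (by clear * - R11 R21 R31 N110 N112 N113 N210 N212 N213 N310 N312 N313; linarith) (by clear * - R11 R21 R31 N110 N112 N113 N210 N212 N213 N310 N312 N313; linarith)
  obtain ⟨w21, w22, w23, w24, w25, w26, q21, q22, q23, q24, q25, q26, e210, e211, e213, e220, e221, e223, e230, e231, e233⟩ := birk3 ((f1 2 0 + f2 2 0 + f3 2 0) / 6 - f2 2 0 / 2 + P U 0 2 / 3) ((f1 2 1 + f2 2 1 + f3 2 1) / 6 - f2 2 1 / 2 + P U 0 2 / 3) ((f1 2 3 + f2 2 3 + f3 2 3) / 6 - f2 2 3 / 2 + P U 0 2 / 3) ((f1 2 0 + f2 2 0 + f3 2 0) / 6 - f3 2 0 / 2 + P U 0 2 / 3) ((f1 2 1 + f2 2 1 + f3 2 1) / 6 - f3 2 1 / 2 + P U 0 2 / 3) ((f1 2 3 + f2 2 3 + f3 2 3) / 6 - f3 2 3 / 2 + P U 0 2 / 3) ((f1 2 0 + f2 2 0 + f3 2 0) / 6 - f1 2 0 / 2 + P U 0 2 / 3) ((f1 2 1 + f2 2 1 + f3 2 1) / 6 - f1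 2 1 / 2 + P U 0 2 / 3) ((f1 2 3 + f2 2 3 + f3 2 3) / 6 - f1 2 3 / 2 + P U 0 2 / 3) (P U 0 2)
    (by clear * - R12 R22 R32 N120 N121 N123 N220 N221 N223 N320 N321 N323; linarith) (by clear * - R12 R22 R32 N120 N121 N123 N220 N221 N223 N320 N321 N323; linarith) (by clear * - R12 R22 R32 N120 N121 N123 N220 N221 N223 N320 N321 N323; linarith) (by clear * - R12 R22 R32 N120 N121 N123 N220 N221 N223 N320 N321 N323; linarith) (by clear * - R12 R22 R32 N120 N121 N123 N220 N221 N223 N320 N321 N323; linarith) (by clear * - R12 R22 R32 N120 N121 N123 N220 N221 N223 N320 N321 N323; linarith) (by clear * - R12 R22 R32 N120 N121 N123 N220 N221 N223 N320 N321 N323; linarith) (by clear * - R12 R22 R32 N120 N121 N123 N220 N221 N223 N320 N321 N323; linarith) (by clear * - R12 R22 R32 N120 N121 N123 N220 N221 N223 N320 N321 N323; linarith) (by clear * - R12 R22 R32 N120 N121 N123 N220 N221 N223 N320 N321 N323; linarith) (by clear * - R12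 R22 R32 N120 N121 N123 N220 N221 N223 N320 N321 N323; linarith) (by clear * - R12 R22 R32 N120 N121 N123 N220 N221 N223 N320 N321 N323; linarith) (by clear * - R12 R22 R32 N120 N121 N123 N220 N221 N223 N320 N321 N323; linarith) (by clear * - R12 R22 R32 N120 N121 N123 N220 N221 N223 N320 N321 N323; linarith) (by clear * - R12 R22 R32 N120 N121 N123 N220 N221 N223 N320 N321 N323; linarith)
  obtain ⟨w31, w32, w33, w34, w35, w36, q31, q32, q33, q34, q35, q36, e310, e311, e312, e320, e321, e322, e330, e331, e332⟩ := birk3 ((f1 3 0 + f2 3 0 + f3 3 0) / 6 - f2 3 0 / 2 + P U 0 3 / 3) ((f1 3 1 + f2 3 1 + f3 3 1) / 6 - f2 3 1 / 2 + P U 0 3 / 3) ((f1 3 2 + f2 3 2 + f3 3 2) / 6 - f2 3 2 / 2 + P U 0 3 / 3) ((f1 3 0 + f2 3 0 + f3 3 0) / 6 - f3 3 0 / 2 + P U 0 3 / 3) ((f1 3 1 + f2 3 1 + f3 3 1) / 6 - f3 3 1 / 2 + P U 0 3 / 3) ((f1 3 2 + f2 3 2 + f3 3 2) / 6 - f3 3 2 / 2 + P U 0 3 / 3) ((f1 3 0 + f2 3 0 + f3 3 0) / 6 - f1 3 0 / 2 + P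 U 0 3 / 3) ((f1 3 1 + f2 3 1 + f3 3 1) / 6 - f1 3 1 / 2 + P U 0 3 / 3) ((f1 3 2 + f2 3 2 + f3 3 2) / 6 - f1 3 2 / 2 + P U 0 3 / 3) (P U 0 3)
    (by clear * - R13 R23 R33 N130 N131 N132 N230 N231 N232 N330 N331 N332; linarith) (by clear * - R13 R23 R33 N130 N131 N132 N230 N231 N232 N330 N331 N332; linarith) (by clear * - R13 R23 R33 N130 N131 N132 N230 N231 N232 N330 N331 N332; linarith) (by clear * - R13 R23 R33 N130 N131 N132 N230 N231 N232 N330 N331 N332; linarith) (by clear * - R13 R23 R33 N130 N131 N132 N230 N231 N232 N330 N331 N332; linarith) (by clear * - R13 R23 R33 N130 N131 N132 N230 N231 N232 N330 N331 N332; linarith) (by clear * - R13 R23 R33 N130 N131 N132 N230 N231 N232 N330 N331 N332; linarith) (by clear * - R13 R23 R33 N130 N131 N132 N230 N231 N232 N330 N331 N332; linarith) (by clear * - R13 R23 R33 N130 N131 N132 N230 N231 N232 N330 N331 N332; linarith) (by clear * - R13 R23 R33 N130 N131 N132 N230 N231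 N232 N330 N331 N332; linarith) (by clear * - R13 R23 R33 N130 N131 N132 N230 N231 N232 N330 N331 N332; linarith) (by clear * - R13 R23 R33 N130 N131 N132 N230 N231 N232 N330 N331 N332; linarith) (by clear * - R13 R23 R33 N130 N131 N132 N230 N231 N232 N330 N331 N332; linarith) (by clear * - R13 R23 R33 N130 N131 N132 N230 N231 N232 N330 N331 N332; linarith) (by clear * - R13 R23 R33 N130 N131 N132 N230 N231 N232 N330 N331 N332; linarith)
  have p00 : P U 0 0 = w01 + w02 + w03 + w04 + w05 + w06 := by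
    clear * - e011 e012 e013 e021 e022 e023 e031 e032 e033 R10 R20 R30
    linarith
  have p01 : P U 0 1 = w11 + w12 + w13 + w14 + w15 + w16 := by
    clear * - e110 e112 e113 e120 e122 e123 e130 e132 e133 R11 R21 R31
    linarith
  have p02 : P U 0 2 = w21 + w22 + w23 + w24 + w25 + w26 := by
    clear * - e210 e211 e213 e220 e221 e223 e230 e231 e233 R12 R22 R32
    linarith
  have p03 : P U 0 3 = w31 + w32 + w33 + w34 + w35 + w36 := by
    clear * - e310 e311 e312 e320 e321 e322 e330 e331 e332 R13 R23 R33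
    linarith
  have m101 : mm U 0 1 0 1 = (w01 + w02 + w11 + w12) + (w03 + w05 + w13 + w15) - (w04 + w06 + w14 + w16) := by
    clear * - C01 S101 S201 S301 e011 e021 e031 e110 e120 e130 p00 p01
    linarith
  have m201 : mm U 0 2 0 1 = (w03 + w05 + w13 + w15) + (w04 + w06 + w14 + w16) - (w01 + w02 + w11 + w12) := by
    clear * - C01 S101 S201 S301 e011 e021 e031 e110 e120 e130 p00 p01
    linarith
  have m301 : mm U 0 3 0 1 = (w01 + w02 + w11 + w12) + (w04 + w06 + w14 + w16) - (w03 + w05 + w13 + w15) := by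
    clear * - C01 S101 S201 S301 e011 e021 e031 e110 e120 e130 p00 p01
    linarith
  have m102 : mm U 0 1 0 2 = (w03 + w04 + w21 + w22) + (w01 + w06 + w23 + w25) - (w02 + w05 + w24 + w26) := by
    clear * - C02 S102 S202 S302 e012 e022 e032 e210 e220 e230 p00 p02
    linarith
  have m202 : mm U 0 2 0 2 = (w01 + w06 + w23 + w25) + (w02 + w05 + w24 + w26) - (w03 + w04 + w21 + w22) := by
    clear * - C02 S102 S202 S302 e012 e022 e032 e210 e220 e230 p00 p02
    linarith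
  have m302 : mm U 0 3 0 2 = (w03 + w04 + w21 + w22) + (w02 + w05 + w24 + w26) - (w01 + w06 + w23 + w25) := by
    clear * - C02 S102 S202 S302 e012 e022 e032 e210 e220 e230 p00 p02
    linarith
  have m103 : mm U 0 1 0 3 = (w05 + w06 + w31 + w32) + (w02 + w04 + w33 + w35) - (w01 + w03 + w34 + w36) := by
    clear * - C03 S103 S203 S303 e013 e023 e033 e310 e320 e330 p00 p03
    linarith
  have m203 : mm U 0 2 0 3 = (w02 + w04 + w33 + w35) + (w01 + w03 + w34 + w36) - (w05 + w06 + w31 + w32) := by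
    clear * - C03 S103 S203 S303 e013 e023 e033 e310 e320 e330 p00 p03
    linarith
  have m303 : mm U 0 3 0 3 = (w05 + w06 + w31 + w32) + (w01 + w03 + w34 + w36) - (w02 + w04 + w33 + w35) := by
    clear * - C03 S103 S203 S303 e013 e023 e033 e310 e320 e330 p00 p03
    linarith
  have m112 : mm U 0 1 1 2 = (w13 + w14 + w23 + w24) + (w11 + w16 + w21 + w26) - (w12 + w15 + w22 + w25) := by
    clear * - C12 S112 S212 S312 e112 e122 e132 e211 e221 e231 p01 p02
    linarith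
  have m212 : mm U 0 2 1 2 = (w11 + w16 + w21 + w26) + (w12 + w15 + w22 + w25) - (w13 + w14 + w23 + w24) := by
    clear * - C12 S112 S212 S312 e112 e122 e132 e211 e221 e231 p01 p02
    linarith
  have m312 : mm U 0 3 1 2 = (w13 + w14 + w23 + w24) + (w12 + w15 + w22 + w25) - (w11 + w16 + w21 + w26) := by
    clear * - C12 S112 S212 S312 e112 e122 e132 e211 e221 e231 p01 p02
    linarith
  have m113 : mm U 0 1 1 3 = (w15 + w16 + w33 + w34) + (w12 + w14 + w31 + w36) - (w11 + w13 + w32 + w35) := by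
    clear * - C13 S113 S213 S313 e113 e123 e133 e311 e321 e331 p01 p03
    linarith
  have m213 : mm U 0 2 1 3 = (w12 + w14 + w31 + w36) + (w11 + w13 + w32 + w35) - (w15 + w16 + w33 + w34) := by
    clear * - C13 S113 S213 S313 e113 e123 e133 e311 e321 e331 p01 p03
    linarith
  have m313 : mm U 0 3 1 3 = (w15 + w16 + w33 + w34) + (w11 + w13 + w32 + w35) - (w12 + w14 + w31 + w36) := by
    clear * - C13 S113 S213 S313 e113 e123 e133 e311 e321 e331 p01 p03
    linarith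
  have m123 : mm U 0 1 2 3 = (w25 + w26 + w35 + w36) + (w22 + w24 + w32 + w34) - (w21 + w23 + w31 + w33) := by
    clear * - C23 S123 S223 S323 e213 e223 e233 e312 e322 e332 p02 p03
    linarith
  have m223 : mm U 0 2 2 3 = (w22 + w24 + w32 + w34) + (w21 + w23 + w31 + w33) - (w25 + w26 + w35 + w36) := by
    clear * - C23 S123 S223 S323 e213 e223 e233 e312 e322 e332 p02 p03
    linarith
  have m323 : mm U 0 3 2 3 = (w25 + w26 + w35 + w36) + (w21 + w23 + w31 + w33) - (w22 + w24 + w32 + w34) := by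
    clear * - C23 S123 S223 S323 e213 e223 e233 e312 e322 e332 p02 p03
    linarith
  have t10 : P U 1 0 = mm U 0 1 0 1 + mm U 0 1 0 2 + mm U 0 1 0 3 - P U 0 0 := by
    have h := sum_mm_row U hU 0 1 (by decide) 0
    rw [Fin.sum_univ_four, mm_self] at h
    clear * - h
    linarith
  have t11 : P U 1 1 = mm U 0 1 0 1 + mm U 0 1 1 2 + mm U 0 1 1 3 - P U 0 1 := by
    have h := sum_mm_row U hU 0 1 (by decide) 1
    rw [Fin.sum_univ_four, mm_self, mm_comm U 0 1 1 0] at h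
    clear * - h
    linarith
  have t12 : P U 1 2 = mm U 0 1 0 2 + mm U 0 1 1 2 + mm U 0 1 2 3 - P U 0 2 := by
    have h := sum_mm_row U hU 0 1 (by decide) 2
    rw [Fin.sum_univ_four, mm_self, mm_comm U 0 1 2 0, mm_comm U 0 1 2 1] at h
    clear * - h
    linarith
  have t13 : P U 1 3 = mm U 0 1 0 3 + mm U 0 1 1 3 + mm U 0 1 2 3 - P U 0 3 := by
    have h := sum_mm_row U hU 0 1 (by decide) 3
    rw [Fin.sum_univ_four, mm_self, mm_comm U 0 1 3 0, mm_comm U 0 1 3 1, mm_comm U 0 1 3 2] at h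
    clear * - h
    linarith
  have t20 : P U 2 0 = mm U 0 2 0 1 + mm U 0 2 0 2 + mm U 0 2 0 3 - P U 0 0 := by
    have h := sum_mm_row U hU 0 2 (by decide) 0
    rw [Fin.sum_univ_four, mm_self] at h
    clear * - h
    linarith
  have t21 : P U 2 1 = mm U 0 2 0 1 + mm U 0 2 1 2 + mm U 0 2 1 3 - P U 0 1 := by
    have h := sum_mm_row U hU 0 2 (by decide) 1
    rw [Fin.sum_univ_four, mm_self, mm_comm U 0 2 1 0] at h
    clear * - h
    linarith
  have t22 : P U 2 2 = mm U 0 2 0 2 + mm U 0 2 1 2 + mm U 0 2 2 3 - P U 0 2 := by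
    have h := sum_mm_row U hU 0 2 (by decide) 2
    rw [Fin.sum_univ_four, mm_self, mm_comm U 0 2 2 0, mm_comm U 0 2 2 1] at h
    clear * - h
    linarith
  have t23 : P U 2 3 = mm U 0 2 0 3 + mm U 0 2 1 3 + mm U 0 2 2 3 - P U 0 3 := by
    have h := sum_mm_row U hU 0 2 (by decide) 3
    rw [Fin.sum_univ_four, mm_self, mm_comm U 0 2 3 0, mm_comm U 0 2 3 1, mm_comm U 0 2 3 2] at h
    clear * - h
    linarith
  have t30 : P U 3 0 = mm U 0 3 0 1 + mm U 0 3 0 2 + mm U 0 3 0 3 - P U 0 0 := by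
    have h := sum_mm_row U hU 0 3 (by decide) 0
    rw [Fin.sum_univ_four, mm_self] at h
    clear * - h
    linarith
  have t31 : P U 3 1 = mm U 0 3 0 1 + mm U 0 3 1 2 + mm U 0 3 1 3 - P U 0 1 := by
    have h := sum_mm_row U hU 0 3 (by decide) 1
    rw [Fin.sum_univ_four, mm_self, mm_comm U 0 3 1 0] at h
    clear * - h
    linarith
  have t32 : P U 3 2 = mm U 0 3 0 2 + mm U 0 3 1 2 + mm U 0 3 2 3 - P U 0 2 := by
    have h := sum_mm_row U hU 0 3 (by decide) 2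
    rw [Fin.sum_univ_four, mm_self, mm_comm U 0 3 2 0, mm_comm U 0 3 2 1] at h
    clear * - h
    linarith
  have t33 : P U 3 3 = mm U 0 3 0 3 + mm U 0 3 1 3 + mm U 0 3 2 3 - P U 0 3 := by
    have h := sum_mm_row U hU 0 3 (by decide) 3
    rw [Fin.sum_univ_four, mm_self, mm_comm U 0 3 3 0, mm_comm U 0 3 3 1, mm_comm U 0 3 3 2] at h
    clear * - h
    linarith
  have T := row_norm U hU 0
  rw [Fin.sum_univ_four] at T
  have T2 : w01 + w02 + w03 + w04 + w05 + w06 + w11 + w12 + w13 + w14 + w15 + w16 + w21 + w22 + w23 + w24 + w25 + w26 + w31 + w32 + w33 + w34 + w35 + w36 = 1 := by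
    clear * - T p00 p01 p02 p03
    linarith
  have key : (fun x : Pt => (G U x.2 (x.1 0) (x.1 1) (x.1 2) (x.1 3)
      + G U x.2 (x.1 0) (x.1 2) (x.1 3) (x.1 1)) / 2) = fun x : Pt => (w01 : ℂ) * zz 0 1 2 3 x + (w02 : ℂ) * zz 0 1 3 2 x + (w03 : ℂ) * zz 0 2 1 3 x + (w04 : ℂ) * zz 0 2 3 1 x + (w05 : ℂ) * zz 0 3 1 2 x + (w06 : ℂ) * zz 0 3 2 1 x + (w11 : ℂ) * zz 1 0 2 3 x + (w12 : ℂ) * zz 1 0 3 2 x + (w13 : ℂ) * zz 1 2 0 3 x + (w14 : ℂ) * zz 1 2 3 0 x + (w15 : ℂ) * zz 1 3 0 2 x + (w16 : ℂ) * zz 1 3 2 0 x + (w21 : ℂ) * zz 2 0 1 3 x + (w22 : ℂ) * zz 2 0 3 1 x + (w23 : ℂ) * zz 2 1 0 3 x + (w24 : ℂ) * zz 2 1 3 0 x + (w25 : ℂ) * zz 2 3 0 1 x + (w26 : ℂ) * zz 2 3 1 0 x + (w31 : ℂ) * zz 3 0 1 2 x + (w32 : ℂ) * zz 3 0 2 1 x + (w33 : ℂ) * zz 3 1 0 2 x + (w34 : ℂ) * zz 3 1 2 0 x + (w35 : ℂ) * zz 3 2 0 1 x + (w36 : ℂ) * zz 3 2 1 0 x := by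
    funext x
    have E1 := DD_Ph U hU x.1 x.2
    have E2 := DD_Ph U hU ![x.1 0, x.1 2, x.1 3, x.1 1] x.2
    simp only [Matrix.cons_val_zero, Matrix.cons_val_one, Matrix.cons_val] at E2
    rw [E1, E2]
    unfold Ph zz
    simp only [Matrix.cons_val_zero, Matrix.cons_val_one, Matrix.cons_val]
    rw [t10, t11, t12, t13, t20, t21, t22, t23, t30, t31, t32, t33]
    rw [m101, m102, m103, m112, m113, m123, m201, m202, m203, m212, m213, m223, m301, m302, m303, m312, m313, m323]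
    rw [p00, p01, p02, p03]
    push_cast
    have T3 : (w01 : ℂ) + (w02 : ℂ) + (w03 : ℂ) + (w04 : ℂ) + (w05 : ℂ) + (w06 : ℂ) + (w11 : ℂ) + (w12 : ℂ) + (w13 : ℂ) + (w14 : ℂ) + (w15 : ℂ) + (w16 : ℂ) + (w21 : ℂ) + (w22 : ℂ) + (w23 : ℂ) + (w24 : ℂ) + (w25 : ℂ) + (w26 : ℂ) + (w31 : ℂ) + (w32 : ℂ) + (w33 : ℂ) + (w34 : ℂ) + (w35 : ℂ) + (w36 : ℂ) = 1 := by exact_mod_cast T2
    clear * - T3
    linear_combination (-(x.1 0 * x.1 1 * x.1 2 * x.1 3 + x.2 0 * x.2 1 * x.2 2 * x.2 3)) * T3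
  rw [key]
  exact InC.mem (InC.add (InC.add (InC.add (InC.add (InC.add (InC.add (InC.add (InC.add (InC.add (InC.add (InC.add (InC.add (InC.add (InC.add (InC.add (InC.add (InC.add (InC.add (InC.add (InC.add (InC.add (InC.add (InC.add (InC_zz w01 (by assumption) 0 1 2 3 (by decide)) (InC_zz w02 (by assumption) 0 1 3 2 (by decide))) (InC_zz w03 (by assumption) 0 2 1 3 (by decide))) (InC_zz w04 (by assumption) 0 2 3 1 (by decide))) (InC_zz w05 (by assumption) 0 3 1 2 (by decide))) (InC_zz w06 (by assumption) 0 3 2 1 (by decide))) (InC_zz w11 (by assumption) 1 0 2 3 (by decide))) (InC_zz w12 (by assumption) 1 0 3 2 (by decide))) (InC_zz w13 (by assumption) 1 2 0 3 (by decide))) (InC_zz w14 (by assumption) 1 2 3 0 (by decide))) (InC_zz w15 (by assumption) 1 3 0 2 (by decide))) (InC_zz w16 (by assumption) 1 3 2 0 (by decide))) (InC_zz w21 (by assumption) 2 0 1 3 (by decide))) (InC_zz w22 (by assumption) 2 0 3 1 (by decide))) (InC_zz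 w23 (by assumption) 2 1 0 3 (by decide))) (InC_zz w24 (by assumption) 2 1 3 0 (by decide))) (InC_zz w25 (by assumption) 2 3 0 1 (by decide))) (InC_zz w26 (by assumption) 2 3 1 0 (by decide))) (InC_zz w31 (by assumption) 3 0 1 2 (by decide))) (InC_zz w32 (by assumption) 3 0 2 1 (by decide))) (InC_zz w33 (by assumption) 3 1 0 2 (by decide))) (InC_zz w34 (by assumption) 3 1 2 0 (by decide))) (InC_zz w35 (by assumption) 3 2 0 1 (by decide))) (InC_zz w36 (by assumption) 3 2 1 0 (by decide))) T2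

end Pool.Agent.Helper2.GM
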