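import Pool.Agent.Helper2.GM.Cone

/-!
Project GM: the mean of two relabellings that differ by a 4-cycle.
-/

set_option autoImplicit false

namespace Pool.Agent.Helper2.GM

open Matrix Complex Equiv

/-- two capacities `n`, `n'` of sum `α + α'` filled up to the level `α` -/
theorem fill2 (n n' α α' : ℝ) (hn : 0 ≤ n) (hn' : 0 ≤ n') (hα : 0 ≤ α) (hα' : 0 ≤ α')
    (h : α + α' = n + n') : ∃ y y' : ℝ, 0 ≤ y ∧ 0 ≤ y' ∧ y ≤ n ∧ y' ≤ n' ∧ y + y' = α := by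
  rcases le_total α n with h1 | h1
  · exact ⟨α, 0, hα, le_rfl, h1, hn', by ring⟩
  · exact ⟨n, α - n, hn, by linarith, le_rfl, by linarith, by ring⟩

/-- a 2×2 table with given margins -/
theorem tab2 (n y z : ℝ) (hy : 0 ≤ y) (hz : 0 ≤ z) (hyn : y ≤ n) (hzn : z ≤ n) :
    ∃ a b c d : ℝ, 0 ≤ a ∧ 0 ≤ b ∧ 0 ≤ c ∧ 0 ≤ d ∧ a + b = y ∧ a + c = z ∧
      a + b + c + d = n := by
  rcases le_total (y + z) n with h1 | h1
  · exact ⟨0, y, z, n - y - z, le_rfl, hy, hz, by linarith, by ring, by ring, by ring⟩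
  · exact ⟨y + z - n, n - z, n - y, 0, by linarith, by linarith, by linarith, le_rfl, by ring,
      by ring, by ring⟩

set_option maxHeartbeats 4000000 in
theorem C4_mem (U : M4) (hU : U ∈ unitaryGroup (Fin 4) ℂ) :
    (fun x : Pt => (G U x.2 (x.1 0) (x.1 1) (x.1 2) (x.1 3)
      + G U x.2 (x.1 1) (x.1 2) (x.1 3) (x.1 0)) / 2) ∈ HZ := by
  have nn := fun q j l => mm_nonneg U 0 q j l
  have C01 := colsum_mm' U hU 0 1 (by decide)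
  have C02 := colsum_mm' U hU 0 2 (by decide)
  have C03 := colsum_mm' U hU 0 3 (by decide)
  have C12 := colsum_mm' U hU 1 2 (by decide)
  have C13 := colsum_mm' U hU 1 3 (by decide)
  have C23 := colsum_mm' U hU 2 3 (by decide)
  have T := row_norm U hU 0
  rw [Fin.sum_univ_four] at T
  have U1 := sum_mm_univ U hU 0 1 (by decide)
  simp only [Fin.sum_univ_four, mm_self] at U1
  rw [mm_comm U 0 1 1 0, mm_comm U 0 1 2 0, mm_comm U 0 1 2 1, mm_comm U 0 1 3 0, mm_comm U 0 1 3 1, mm_comm U 0 1 3 2] at U1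
  have U2 := sum_mm_univ U hU 0 2 (by decide)
  simp only [Fin.sum_univ_four, mm_self] at U2
  rw [mm_comm U 0 2 1 0, mm_comm U 0 2 2 0, mm_comm U 0 2 2 1, mm_comm U 0 2 3 0, mm_comm U 0 2 3 1, mm_comm U 0 2 3 2] at U2
  have U3 := sum_mm_univ U hU 0 3 (by decide)
  simp only [Fin.sum_univ_four, mm_self] at U3
  rw [mm_comm U 0 3 1 0, mm_comm U 0 3 2 0, mm_comm U 0 3 2 1, mm_comm U 0 3 3 0, mm_comm U 0 3 3 1, mm_comm U 0 3 3 2] at U3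
  obtain ⟨x1, x2, x3, x4, x5, x6, hx1, hx2, hx3, hx4, hx5, hx6, e11, e12, e13, e21, e22, e23, e31, e32, e33⟩ := birk3 (mm U 0 1 0 1 + mm U 0 1 2 3) (mm U 0 1 0 2 + mm U 0 1 1 3) (mm U 0 1 0 3 + mm U 0 1 1 2) (mm U 0 2 0 1 + mm U 0 2 2 3) (mm U 0 2 0 2 + mm U 0 2 1 3) (mm U 0 2 0 3 + mm U 0 2 1 2) (mm U 0 3 0 1 + mm U 0 3 2 3) (mm U 0 3 0 2 + mm U 0 3 1 3) (mm U 0 3 0 3 + mm U 0 3 1 2) 1
    (add_nonneg (nn _ _ _) (nn _ _ _)) (add_nonneg (nn _ _ _) (nn _ _ _)) (add_nonneg (nn _ _ _) (nn _ _ _)) (add_nonneg (nn _ _ _) (nn _ _ _)) (add_nonneg (nn _ _ _) (nn _ _ _)) (add_nonneg (nn _ _ _) (nn _ _ _)) (add_nonneg (nn _ _ _) (nn _ _ _)) (add_nonneg (nn _ _ _) (nn _ _ _)) (add_nonneg (nn _ _ _) (nn _ _ _))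
    (by clear * - U1 U2 U3 C01 C02 C03 C12 C13 C23 T; linarith) (by clear * - U1 U2 U3 C01 C02 C03 C12 C13 C23 T; linarith) (by clear * - U1 U2 U3 C01 C02 C03 C12 C13 C23 T; linarith) (by clear * - U1 U2 U3 C01 C02 C03 C12 C13 C23 T; linarith) (by clear * - U1 U2 U3 C01 C02 C03 C12 C13 C23 T; linarith) (by clear * - U1 U2 U3 C01 C02 C03 C12 C13 C23 T; linarith)
  obtain ⟨y1, y2, py1, py2, ly1, ly2, sy1⟩ := fill2 x1 x2 (mm U 0 1 0 1) (mm U 0 1 2 3) hx1 hx2 (nn _ _ _) (nn _ _ _) (by rw [e11])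
  obtain ⟨y3, y4, py3, py4, ly3, ly4, sy2⟩ := fill2 x3 x4 (mm U 0 1 0 2) (mm U 0 1 1 3) hx3 hx4 (nn _ _ _) (nn _ _ _) (by rw [e12])
  obtain ⟨y5, y6, py5, py6, ly5, ly6, sy3⟩ := fill2 x5 x6 (mm U 0 1 0 3) (mm U 0 1 1 2) hx5 hx6 (nn _ _ _) (nn _ _ _) (by rw [e13])
  obtain ⟨z4, z6, pz4, pz6, lz4, lz6, sz1⟩ := fill2 x4 x6 (mm U 0 3 0 1) (mm U 0 3 2 3) hx4 hx6 (nn _ _ _) (nn _ _ _) (by rw [e31])
  obtain ⟨z2, z5, pz2, pz5, lz2, lz5, sz2⟩ := fill2 x2 x5 (mm U 0 3 0 2) (mm U 0 3 1 3) hx2 hx5 (nn _ _ _) (nn _ _ _) (by rw [e32])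
  obtain ⟨z1, z3, pz1, pz3, lz1, lz3, sz3⟩ := fill2 x1 x3 (mm U 0 3 0 3) (mm U 0 3 1 2) hx1 hx3 (nn _ _ _) (nn _ _ _) (by rw [e33])
  obtain ⟨a1, b1, c1, d1, pa1, pb1, pc1, pd1, gy1, gz1, gn1⟩ := tab2 x1 y1 z1 py1 pz1 ly1 lz1
  obtain ⟨a2, b2, c2, d2, pa2, pb2, pc2, pd2, gy2, gz2, gn2⟩ := tab2 x2 y2 z2 py2 pz2 ly2 lz2
  obtain ⟨a3, b3, c3, d3, pa3, pb3, pc3, pd3, gy3, gz3, gn3⟩ := tab2 x3 y3 z3 py3 pz3 ly3 lz3
  obtain ⟨a4, b4, c4, d4, pa4, pb4, pc4, pd4, gy4, gz4, gn4⟩ := tab2 x4 y4 z4 py4 pz4 ly4 lz4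
  obtain ⟨a5, b5, c5, d5, pa5, pb5, pc5, pd5, gy5, gz5, gn5⟩ := tab2 x5 y5 z5 py5 pz5 ly5 lz5
  obtain ⟨a6, b6, c6, d6, pa6, pb6, pc6, pd6, gy6, gz6, gn6⟩ := tab2 x6 y6 z6 py6 pz6 ly6 lz6
  have m101 : mm U 0 1 0 1 = a1 + a2 + b2 + b1 := by
    clear * - sy1 gy1 gy2 gn1 gn2 e11
    linarith
  have m102 : mm U 0 1 0 2 = a3 + a4 + b4 + b3 := by
    clear * - sy2 gy3 gy4 gn3 gn4 e12
    linarith
  have m103 : mm U 0 1 0 3 = a5 + a6 + b6 + b5 := by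
    clear * - sy3 gy5 gy6 gn5 gn6 e13
    linarith
  have m112 : mm U 0 1 1 2 = d5 + c6 + d6 + c5 := by
    clear * - sy3 gy5 gy6 gn5 gn6 e13
    linarith
  have m113 : mm U 0 1 1 3 = d3 + c4 + d4 + c3 := by
    clear * - sy2 gy3 gy4 gn3 gn4 e12
    linarith
  have m123 : mm U 0 1 2 3 = d1 + c2 + d2 + c1 := by
    clear * - sy1 gy1 gy2 gn1 gn2 e11
    linarith
  have m301 : mm U 0 3 0 1 = a4 + a6 + c6 + c4 := by
    clear * - sz1 gz4 gz6 gn4 gn6 e31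
    linarith
  have m302 : mm U 0 3 0 2 = a2 + a5 + c5 + c2 := by
    clear * - sz2 gz2 gz5 gn2 gn5 e32
    linarith
  have m303 : mm U 0 3 0 3 = a1 + a3 + c3 + c1 := by
    clear * - sz3 gz1 gz3 gn1 gn3 e33
    linarith
  have m312 : mm U 0 3 1 2 = b1 + d3 + b3 + d1 := by
    clear * - sz3 gz1 gz3 gn1 gn3 e33
    linarith
  have m313 : mm U 0 3 1 3 = b2 + d5 + b5 + d2 := by
    clear * - sz2 gz2 gz5 gn2 gn5 e32
    linarith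
  have m323 : mm U 0 3 2 3 = b4 + d6 + b6 + d4 := by
    clear * - sz1 gz4 gz6 gn4 gn6 e31
    linarith
  have m201 : mm U 0 2 0 1 = (a3 + a5 + d5 + d3) + (b3 + c5 + b5 + c3) - mm U 0 2 2 3 := by
    clear * - e21 gn3 gn5
    linarith
  have m202 : mm U 0 2 0 2 = (a1 + a6 + d6 + d1) + (b1 + c6 + b6 + c1) - mm U 0 2 1 3 := by
    clear * - e22 gn1 gn6
    linarith
  have m203 : mm U 0 2 0 3 = (a2 + a4 + d4 + d2) + (b2 + c4 + b4 + c2) - mm U 0 2 1 2 := by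
    clear * - e23 gn2 gn4
    linarith
  have T2 : a1 + a2 + a3 + a4 + a5 + a6 + b2 + b1 + d5 + c6 + d3 + c4 + b4 + b3 + d6 + c5 + d1 + c2 + b6 + b5 + d4 + c3 + d2 + c1 = 1 := by
    clear * - gn1 gn2 gn3 gn4 gn5 gn6 e11 e12 e13 U1
    linarith
  have t10 : P U 1 0 = (a1 + a2 + b2 + b1) + (a3 + a4 + b4 + b3) + (a5 + a6 + b6 + b5) - P U 0 0 := by
    have h := sum_mm_row U hU 0 1 (by decide) 0
    rw [Fin.sum_univ_four, mm_self] at h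
    clear * - h m101 m102 m103
    linarith
  have t11 : P U 1 1 = (a1 + a2 + b2 + b1) + (d5 + c6 + d6 + c5) + (d3 + c4 + d4 + c3) - P U 0 1 := by
    have h := sum_mm_row U hU 0 1 (by decide) 1
    rw [Fin.sum_univ_four, mm_self, mm_comm U 0 1 1 0] at h
    clear * - h m101 m112 m113
    linarith
  have t12 : P U 1 2 = (a3 + a4 + b4 + b3) + (d5 + c6 + d6 + c5) + (d1 + c2 + d2 + c1) - P U 0 2 := by
    have h := sum_mm_row U hU 0 1 (by decide) 2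
    rw [Fin.sum_univ_four, mm_self, mm_comm U 0 1 2 0, mm_comm U 0 1 2 1] at h
    clear * - h m102 m112 m123
    linarith
  have t13 : P U 1 3 = (a5 + a6 + b6 + b5) + (d3 + c4 + d4 + c3) + (d1 + c2 + d2 + c1) - P U 0 3 := by
    have h := sum_mm_row U hU 0 1 (by decide) 3
    rw [Fin.sum_univ_four, mm_self, mm_comm U 0 1 3 0, mm_comm U 0 1 3 1, mm_comm U 0 1 3 2] at h
    clear * - h m103 m113 m123
    linarith
  have t30 : P U 3 0 = (a4 + a6 + c6 + c4) + (a2 + a5 + c5 + c2) + (a1 + a3 + c3 + c1) - P U 0 0 := by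
    have h := sum_mm_row U hU 0 3 (by decide) 0
    rw [Fin.sum_univ_four, mm_self] at h
    clear * - h m301 m302 m303
    linarith
  have t31 : P U 3 1 = (a4 + a6 + c6 + c4) + (b1 + d3 + b3 + d1) + (b2 + d5 + b5 + d2) - P U 0 1 := by
    have h := sum_mm_row U hU 0 3 (by decide) 1
    rw [Fin.sum_univ_four, mm_self, mm_comm U 0 3 1 0] at h
    clear * - h m301 m312 m313
    linarith
  have t32 : P U 3 2 = (a2 + a5 + c5 + c2) + (b1 + d3 + b3 + d1) + (b4 + d6 + b6 + d4) - P U 0 2 := by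
    have h := sum_mm_row U hU 0 3 (by decide) 2
    rw [Fin.sum_univ_four, mm_self, mm_comm U 0 3 2 0, mm_comm U 0 3 2 1] at h
    clear * - h m302 m312 m323
    linarith
  have t33 : P U 3 3 = (a1 + a3 + c3 + c1) + (b2 + d5 + b5 + d2) + (b4 + d6 + b6 + d4) - P U 0 3 := by
    have h := sum_mm_row U hU 0 3 (by decide) 3
    rw [Fin.sum_univ_four, mm_self, mm_comm U 0 3 3 0, mm_comm U 0 3 3 1, mm_comm U 0 3 3 2] at h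
    clear * - h m303 m313 m323
    linarith
  have t20 : P U 2 0 = (a1 + a2 + a3 + a4 + a5 + a6 + b2 + b1 + d5 + c6 + d3 + c4 + b4 + b3 + d6 + c5 + d1 + c2 + b6 + b5 + d4 + c3 + d2 + c1) - ((a1 + a2 + b2 + b1) + (a3 + a4 + b4 + b3) + (a5 + a6 + b6 + b5)) - ((a4 + a6 + c6 + c4) + (a2 + a5 + c5 + c2) + (a1 + a3 + c3 + c1)) + P U 0 0 := by
    have h := col_norm U hU 0
    rw [Fin.sum_univ_four] at h
    clear * - h T2 t10 t30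
    linarith
  have t21 : P U 2 1 = (a1 + a2 + a3 + a4 + a5 + a6 + b2 + b1 + d5 + c6 + d3 + c4 + b4 + b3 + d6 + c5 + d1 + c2 + b6 + b5 + d4 + c3 + d2 + c1) - ((a1 + a2 + b2 + b1) + (d5 + c6 + d6 + c5) + (d3 + c4 + d4 + c3)) - ((a4 + a6 + c6 + c4) + (b1 + d3 + b3 + d1) + (b2 + d5 + b5 + d2)) + P U 0 1 := by
    have h := col_norm U hU 1
    rw [Fin.sum_univ_four] at h
    clear * - h T2 t11 t31
    linarith
  have t22 : P U 2 2 = (a1 + a2 + a3 + a4 + a5 + a6 + b2 + b1 + d5 + c6 + d3 + c4 + b4 + b3 + d6 + c5 + d1 + c2 + b6 + b5 + d4 + c3 + d2 + c1) - ((a3 + a4 + b4 + b3) + (d5 + c6 + d6 + c5) + (d1 + c2 + d2 + c1)) - ((a2 + a5 + c5 + c2) + (b1 + d3 + b3 + d1) + (b4 + d6 + b6 + d4)) + P U 0 2 := by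
    have h := col_norm U hU 2
    rw [Fin.sum_univ_four] at h
    clear * - h T2 t12 t32
    linarith
  have t23 : P U 2 3 = (a1 + a2 + a3 + a4 + a5 + a6 + b2 + b1 + d5 + c6 + d3 + c4 + b4 + b3 + d6 + c5 + d1 + c2 + b6 + b5 + d4 + c3 + d2 + c1) - ((a5 + a6 + b6 + b5) + (d3 + c4 + d4 + c3) + (d1 + c2 + d2 + c1)) - ((a1 + a3 + c3 + c1) + (b2 + d5 + b5 + d2) + (b4 + d6 + b6 + d4)) + P U 0 3 := by
    have h := col_norm U hU 3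
    rw [Fin.sum_univ_four] at h
    clear * - h T2 t13 t33
    linarith
  have key : (fun x : Pt => (G U x.2 (x.1 0) (x.1 1) (x.1 2) (x.1 3)
      + G U x.2 (x.1 1) (x.1 2) (x.1 3) (x.1 0)) / 2) = fun x : Pt => ((a1 / 2 : ℝ) : ℂ) * zz 0 1 2 3 x + ((a1 / 2 : ℝ) : ℂ) * zz 3 0 1 2 x + ((a2 / 2 : ℝ) : ℂ) * zz 0 1 3 2 x + ((a2 / 2 : ℝ) : ℂ) * zz 2 0 1 3 x + ((a3 / 2 : ℝ) : ℂ) * zz 0 2 1 3 x + ((a3 / 2 : ℝ) : ℂ) * zz 3 0 2 1 x + ((a4 / 2 : ℝ) : ℂ) * zz 0 2 3 1 x + ((a4 / 2 : ℝ) : ℂ) * zz 1 0 2 3 x + ((a5 / 2 : ℝ) : ℂ) * zz 0 3 1 2 x + ((a5 / 2 : ℝ) : ℂ) * zz 2 0 3 1 x + ((a6 / 2 : ℝ) : ℂ) * zz 0 3 2 1 x + ((a6 / 2 : ℝ) : ℂ) * zz 1 0 3 2 x + ((b2 / 2 : ℝ) : ℂ) * zz 1 0 2 3 x + ((b2 / 2 : ℝ) : ℂ) * zz 3 1 0 2 x + ((b1 / 2 : ℝ) : ℂ) * zz 1 0 3 2 x + ((b1 / 2 : ℝ) : ℂ) * zz 2 1 0 3 x + ((d5 / 2 : ℝ) : ℂ) * zz 1 2 0 3 x + ((d5 / 2 :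 ℝ) : ℂ) * zz 3 1 2 0 x + ((c6 / 2 : ℝ) : ℂ) * zz 1 2 3 0 x + ((c6 / 2 : ℝ) : ℂ) * zz 0 1 2 3 x + ((d3 / 2 : ℝ) : ℂ) * zz 1 3 0 2 x + ((d3 / 2 : ℝ) : ℂ) * zz 2 1 3 0 x + ((c4 / 2 : ℝ) : ℂ) * zz 1 3 2 0 x + ((c4 / 2 : ℝ) : ℂ) * zz 0 1 3 2 x + ((b4 / 2 : ℝ) : ℂ) * zz 2 0 1 3 x + ((b4 / 2 : ℝ) : ℂ) * zz 3 2 0 1 x + ((b3 / 2 : ℝ) : ℂ) * zz 2 0 3 1 x + ((b3 / 2 : ℝ) : ℂ) * zz 1 2 0 3 x + ((d6 / 2 : ℝ) : ℂ) * zz 2 1 0 3 x + ((d6 / 2 : ℝ) : ℂ) * zz 3 2 1 0 x + ((c5 / 2 : ℝ) : ℂ) * zz 2 1 3 0 x + ((c5 / 2 : ℝ) : ℂ) * zz 0 2 1 3 x + ((d1 / 2 : ℝ) : ℂ) * zz 2 3 0 1 x + ((d1 / 2 : ℝ) : ℂ) * zz 1 2 3 0 x + ((c2 / 2 : ℝ) : ℂ) * zz 2 3 1 0 x + ((c2 / 2 : ℝ) : ℂ) * zz 0 2 3 1 x + ((b6 / 2 : ℝ) : ℂ) * zz 3 0 1 2 x + ((b6 / 2 : ℝ) : ℂ) * zz 2 3 0 1 x + ((b5 / 2 : ℝ) : ℂ) * zz 3 0 2 1 x + ((b5 / 2 : ℝ) : ℂ) * zz 1 3 0 2 x + ((d4 / 2 : ℝ) :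 ℂ) * zz 3 1 0 2 x + ((d4 / 2 : ℝ) : ℂ) * zz 2 3 1 0 x + ((c3 / 2 : ℝ) : ℂ) * zz 3 1 2 0 x + ((c3 / 2 : ℝ) : ℂ) * zz 0 3 1 2 x + ((d2 / 2 : ℝ) : ℂ) * zz 3 2 0 1 x + ((d2 / 2 : ℝ) : ℂ) * zz 1 3 2 0 x + ((c1 / 2 : ℝ) : ℂ) * zz 3 2 1 0 x + ((c1 / 2 : ℝ) : ℂ) * zz 0 3 2 1 x := by
    funext x
    have E1 := DD_Ph U hU x.1 x.2
    have E2 := DD_Ph U hU ![x.1 1, x.1 2, x.1 3, x.1 0] x.2
    simp only [Matrix.cons_val_zero, Matrix.cons_val_one, Matrix.cons_val] at E2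
    rw [E1, E2]
    unfold Ph zz
    simp only [Matrix.cons_val_zero, Matrix.cons_val_one, Matrix.cons_val]
    rw [t10, t11, t12, t13, t30, t31, t32, t33, t20, t21, t22, t23]
    rw [m101, m102, m103, m112, m113, m123, m301, m302, m303, m312, m313, m323, m201, m202, m203]
    push_cast
    have T3 : (a1 : ℂ) + (a2 : ℂ) + (a3 : ℂ) + (a4 : ℂ) + (a5 : ℂ) + (a6 : ℂ) + (b2 : ℂ) + (b1 : ℂ) + (d5 : ℂ) + (c6 : ℂ) + (d3 : ℂ) + (c4 : ℂ) + (b4 : ℂ) + (b3 : ℂ) + (d6 : ℂ) + (c5 : ℂ) + (d1 : ℂ) + (c2 : ℂ) + (b6 : ℂ) + (b5 : ℂ) + (d4 : ℂ) + (c3 : ℂ) + (d2 : ℂ) + (c1 : ℂ) = 1 := by exact_mod_cast T2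
    clear * - T3
    linear_combination (-(x.1 0 * x.1 1 * x.1 2 * x.1 3 + x.2 0 * x.2 1 * x.2 2 * x.2 3)) * T3
  rw [key]
  exact InC.mem (InC.add (InC.add (InC.add (InC.add (InC.add (InC.add (InC.add (InC.add (InC.add (InC.add (InC.add (InC.add (InC.add (InC.add (InC.add (InC.add (InC.add (InC.add (InC.add (InC.add (InC.add (InC.add (InC.add (InC.add (InC.add (InC.add (InC.add (InC.add (InC.add (InC.add (InC.add (InC.add (InC.add (InC.add (InC.add (InC.add (InC.add (InC.add (InC.add (InC.add (InC.add (InC.add (InC.add (InC.add (InC.add (InC.add (InC.add (InC_zz (a1 / 2) (div_nonneg pa1 zero_le_two) 0 1 2 3 (by decide)) (InC_zz (a1 / 2) (div_nonneg pa1 zero_le_two) 3 0 1 2 (by decide))) (InC_zz (a2 / 2) (div_nonneg pa2 zero_le_two) 0 1 3 2 (by decide))) (InC_zz (a2 / 2) (div_nonneg pa2 zero_le_two) 2 0 1 3 (by decide)))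 (InC_zz (a3 / 2) (div_nonneg pa3 zero_le_two) 0 2 1 3 (by decide))) (InC_zz (a3 / 2) (div_nonneg pa3 zero_le_two) 3 0 2 1 (by decide))) (InC_zz (a4 / 2) (div_nonneg pa4 zero_le_two) 0 2 3 1 (by decide))) (InC_zz (a4 / 2) (div_nonneg pa4 zero_le_two) 1 0 2 3 (by decide))) (InC_zz (a5 / 2) (div_nonneg pa5 zero_le_two) 0 3 1 2 (by decide))) (InC_zz (a5 / 2) (div_nonneg pa5 zero_le_two) 2 0 3 1 (by decide))) (InC_zz (a6 / 2) (div_nonneg pa6 zero_le_two) 0 3 2 1 (by decide))) (InC_zz (a6 / 2) (div_nonneg pa6 zero_le_two) 1 0 3 2 (by decide))) (InC_zz (b2 / 2) (div_nonneg pb2 zero_le_two) 1 0 2 3 (by decide))) (InC_zz (b2 / 2) (div_nonneg pb2 zero_le_two) 3 1 0 2 (by decide))) (InC_zz (b1 / 2) (div_nonneg pb1 zero_le_two) 1 0 3 2 (by decide))) (InC_zz (b1 / 2) (div_nonneg pb1 zero_le_two) 2 1 0 3 (by decide))) (InC_zz (d5 / 2)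 (div_nonneg pd5 zero_le_two) 1 2 0 3 (by decide))) (InC_zz (d5 / 2) (div_nonneg pd5 zero_le_two) 3 1 2 0 (by decide))) (InC_zz (c6 / 2) (div_nonneg pc6 zero_le_two) 1 2 3 0 (by decide))) (InC_zz (c6 / 2) (div_nonneg pc6 zero_le_two) 0 1 2 3 (by decide))) (InC_zz (d3 / 2) (div_nonneg pd3 zero_le_two) 1 3 0 2 (by decide))) (InC_zz (d3 / 2) (div_nonneg pd3 zero_le_two) 2 1 3 0 (by decide))) (InC_zz (c4 / 2) (div_nonneg pc4 zero_le_two) 1 3 2 0 (by decide))) (InC_zz (c4 / 2) (div_nonneg pc4 zero_le_two) 0 1 3 2 (by decide))) (InC_zz (b4 / 2) (div_nonneg pb4 zero_le_two) 2 0 1 3 (by decide))) (InC_zz (b4 / 2) (div_nonneg pb4 zero_le_two) 3 2 0 1 (by decide))) (InC_zz (b3 / 2) (div_nonneg pb3 zero_le_two) 2 0 3 1 (by decide))) (InC_zz (b3 / 2) (div_nonneg pb3 zero_le_two) 1 2 0 3 (by decide))) (InC_zz (d6 / 2) (div_nonneg pd6 zero_le_two)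 2 1 0 3 (by decide))) (InC_zz (d6 / 2) (div_nonneg pd6 zero_le_two) 3 2 1 0 (by decide))) (InC_zz (c5 / 2) (div_nonneg pc5 zero_le_two) 2 1 3 0 (by decide))) (InC_zz (c5 / 2) (div_nonneg pc5 zero_le_two) 0 2 1 3 (by decide))) (InC_zz (d1 / 2) (div_nonneg pd1 zero_le_two) 2 3 0 1 (by decide))) (InC_zz (d1 / 2) (div_nonneg pd1 zero_le_two) 1 2 3 0 (by decide))) (InC_zz (c2 / 2) (div_nonneg pc2 zero_le_two) 2 3 1 0 (by decide))) (InC_zz (c2 / 2) (div_nonneg pc2 zero_le_two) 0 2 3 1 (by decide))) (InC_zz (b6 / 2) (div_nonneg pb6 zero_le_two) 3 0 1 2 (by decide))) (InC_zz (b6 / 2) (div_nonneg pb6 zero_le_two) 2 3 0 1 (by decide))) (InC_zz (b5 / 2) (div_nonneg pb5 zero_le_two) 3 0 2 1 (by decide))) (InC_zz (b5 / 2) (div_nonneg pb5 zero_le_two) 1 3 0 2 (by decide))) (InC_zz (d4 / 2) (div_nonneg pd4 zero_le_two) 3 1 0 2 (by decide)))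 (InC_zz (d4 / 2) (div_nonneg pd4 zero_le_two) 2 3 1 0 (by decide))) (InC_zz (c3 / 2) (div_nonneg pc3 zero_le_two) 3 1 2 0 (by decide))) (InC_zz (c3 / 2) (div_nonneg pc3 zero_le_two) 0 3 1 2 (by decide))) (InC_zz (d2 / 2) (div_nonneg pd2 zero_le_two) 3 2 0 1 (by decide))) (InC_zz (d2 / 2) (div_nonneg pd2 zero_le_two) 1 3 2 0 (by decide))) (InC_zz (c1 / 2) (div_nonneg pc1 zero_le_two) 3 2 1 0 (by decide))) (InC_zz (c1 / 2) (div_nonneg pc1 zero_le_two) 0 3 2 1 (by decide))) (by clear * - T2; linarith)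

end Pool.Agent.Helper2.GM
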