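import Pool.Agent.Helper2.GM.Pol

/-!
Project GM: the mean over a double transposition.
-/

set_option autoImplicit false

namespace Pool.Agent.Helper2.GM

open Matrix Complex Equiv

theorem transp2 (m m' fA fB : ℝ) (hm : 0 ≤ m) (hm' : 0 ≤ m') (hA : 0 ≤ fA) (hB : 0 ≤ fB)
    (h : m + m' = fA + fB) : ∃ wA wB wA' wB' : ℝ, 0 ≤ wA ∧ 0 ≤ wB ∧ 0 ≤ wA' ∧ 0 ≤ wB' ∧
      wA + wB = m ∧ wA' + wB' = m' ∧ wA + wA' = fA ∧ wB + wB' = fB := by
  rcases le_total m fA with h1 | h1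
  · exact ⟨m, 0, fA - m, fB, hm, le_rfl, by linarith, hB, by ring, by linarith, by ring, by ring⟩
  · exact ⟨fA, m - fA, 0, m', hA, by linarith, le_rfl, hm', by ring, by ring, by ring,
      by linarith⟩

/-- 3×3 transport with zero diagonal -/
theorem transp3 (n11 n12 n13 n21 n22 n23 n31 n32 n33 : ℝ) (h11 : 0 ≤ n11) (h12 : 0 ≤ n12)
    (h13 : 0 ≤ n13) (h21 : 0 ≤ n21) (h22 : 0 ≤ n22) (h23 : 0 ≤ n23) (h31 : 0 ≤ n31)
    (h32 : 0 ≤ n32) (h33 : 0 ≤ n33) (r1 : n11 + n12 + n13 = 1) (r2 : n21 + n22 + n23 = 1)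
    (r3 : n31 + n32 + n33 = 1) (c1 : n11 + n21 + n31 = 1) (c2 : n12 + n22 + n32 = 1)
    (c3 : n13 + n23 + n33 = 1) :
    ∃ f12 f13 f21 f23 f31 f32 : ℝ, 0 ≤ f12 ∧ 0 ≤ f13 ∧ 0 ≤ f21 ∧ 0 ≤ f23 ∧ 0 ≤ f31 ∧ 0 ≤ f32 ∧
      f12 + f13 = n11 ∧ f21 + f23 = n12 ∧ f31 + f32 = n13 ∧
      f21 + f31 = n21 ∧ f12 + f32 = n22 ∧ f13 + f23 = n23 ∧
      f23 + f32 = n31 ∧ f13 + f31 = n32 ∧ f12 + f21 = n33 := by
  obtain ⟨x, hx0, hx1, hx2, hx3, hx4, hx5⟩ : ∃ x : ℝ, 0 ≤ x ∧ n22 - n13 ≤ x ∧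
      n21 + n22 - n12 - n13 ≤ x ∧ x ≤ n11 ∧ x ≤ n22 ∧ x ≤ n21 + n22 - n13 := by
    refine ⟨max 0 (max (n22 - n13) (n21 + n22 - n12 - n13)), le_max_left _ _,
      (le_max_left _ _).trans (le_max_right _ _), (le_max_right _ _).trans (le_max_right _ _),
      ?_, ?_, ?_⟩ <;>
    refine max_le (by linarith) (max_le (by linarith) (by linarith))
  exact ⟨x, n11 - x, n21 - n13 + n22 - x, n12 - n21 + n13 - n22 + x, n13 - n22 + x, n22 - x,
    hx0, by linarith, by linarith, by linarith, by linarith, by linarith, by ring, by ring,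
    by ring, by ring, by ring, by linarith, by linarith, by linarith, by linarith⟩

/-- `DD` for `s` at the rows `0, k` and `t` at the other rows -/
theorem DD_pair (U : M4) (hU : U ∈ unitaryGroup (Fin 4) ℂ) (k : Fin 4) (hk : 0 ≠ k)
    (b : Fin 4 → ℂ) (s t : ℂ) :
    DD U (fun r => if r = 0 then s else if r = k then s else t) b
      = mm U 0 k 0 1 * ((s + b 0) * (s + b 1) * ((t + b 2) * (t + b 3)))
      + mm U 0 k 0 2 * ((s + b 0) * (s + b 2) * ((t + b 1) * (t + b 3)))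
      + mm U 0 k 0 3 * ((s + b 0) * (s + b 3) * ((t + b 1) * (t + b 2)))
      + mm U 0 k 1 2 * ((s + b 1) * (s + b 2) * ((t + b 0) * (t + b 3)))
      + mm U 0 k 1 3 * ((s + b 1) * (s + b 3) * ((t + b 0) * (t + b 2)))
      + mm U 0 k 2 3 * ((s + b 2) * (s + b 3) * ((t + b 0) * (t + b 1))) := by
  rw [DD_two U hU 0 k hk]
  have hr : ∀ j, ∑ l, ((mm U 0 k j l : ℝ) : ℂ) = P U 0 j + P U k j := by
    intro j
    exact_mod_cast sum_mm_row U hU 0 k hk j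
  have hself : ∀ j, ((mm U 0 k j j : ℝ) : ℂ) = 0 := by
    intro j
    rw [mm_self]
    simp
  have h0 := hr 0
  have h1 := hr 1
  have h2 := hr 2
  have h3 := hr 3
  have hn0 := row_norm U hU 0
  have hnk := row_norm U hU k
  rw [Fin.sum_univ_four] at hn0 hnk
  have hn0' : ((P U 0 0 : ℝ) : ℂ) + P U 0 1 + P U 0 2 + P U 0 3 = 1 := by exact_mod_cast hn0
  have hnk' : ((P U k 0 : ℝ) : ℂ) + P U k 1 + P U k 2 + P U k 3 = 1 := by exact_mod_cast hnk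
  simp only [Fin.sum_univ_four, hself] at h0 h1 h2 h3
  rw [mm_comm U 0 k 1 0] at h1
  rw [mm_comm U 0 k 2 0, mm_comm U 0 k 2 1] at h2
  rw [mm_comm U 0 k 3 0, mm_comm U 0 k 3 1, mm_comm U 0 k 3 2] at h3
  linear_combination (-(s - t)) * ((t + b 1) * (t + b 2) * (t + b 3)) * h0
    + (-(s - t)) * ((t + b 0) * (t + b 2) * (t + b 3)) * h1
    + (-(s - t)) * ((t + b 0) * (t + b 1) * (t + b 3)) * h2
    + (-(s - t)) * ((t + b 0) * (t + b 1) * (t + b 2)) * h3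
    - ((t + b 0) * (t + b 1) * (t + b 2) * (t + b 3)) * ((h0 + h1 + h2 + h3 + hn0' + hnk') / 2)

theorem G_pair1 (U : M4) (hU : U ∈ unitaryGroup (Fin 4) ℂ) (b : Fin 4 → ℂ) (s t : ℂ) :
    G U b s s t t = mm U 0 1 0 1 * ((s + b 0) * (s + b 1) * ((t + b 2) * (t + b 3)))
      + mm U 0 1 0 2 * ((s + b 0) * (s + b 2) * ((t + b 1) * (t + b 3)))
      + mm U 0 1 0 3 * ((s + b 0) * (s + b 3) * ((t + b 1) * (t + b 2)))
      + mm U 0 1 1 2 * ((s + b 1) * (s + b 2) * ((t + b 0) * (t + b 3)))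
      + mm U 0 1 1 3 * ((s + b 1) * (s + b 3) * ((t + b 0) * (t + b 2)))
      + mm U 0 1 2 3 * ((s + b 2) * (s + b 3) * ((t + b 0) * (t + b 1))) := by
  have h := DD_pair U hU 1 (by decide) b s t
  have e : (fun r : Fin 4 => if r = 0 then s else if r = 1 then s else t) = ![s, s, t, t] := by
    funext r
    fin_cases r <;> simp
  rw [e] at h
  exact h

theorem G_pair2 (U : M4) (hU : U ∈ unitaryGroup (Fin 4) ℂ) (b : Fin 4 → ℂ) (s t : ℂ) :
    G U b s t s t = mm U 0 2 0 1 * ((s + b 0) * (s + b 1) * ((t + b 2) * (t + b 3)))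
      + mm U 0 2 0 2 * ((s + b 0) * (s + b 2) * ((t + b 1) * (t + b 3)))
      + mm U 0 2 0 3 * ((s + b 0) * (s + b 3) * ((t + b 1) * (t + b 2)))
      + mm U 0 2 1 2 * ((s + b 1) * (s + b 2) * ((t + b 0) * (t + b 3)))
      + mm U 0 2 1 3 * ((s + b 1) * (s + b 3) * ((t + b 0) * (t + b 2)))
      + mm U 0 2 2 3 * ((s + b 2) * (s + b 3) * ((t + b 0) * (t + b 1))) := by
  have h := DD_pair U hU 2 (by decide) b s t
  have e : (fun r : Fin 4 => if r = 0 then s else if r = 2 then s else t) = ![s, t, s, t] := by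
    funext r
    fin_cases r <;> simp
  rw [e] at h
  exact h

theorem G_pair3 (U : M4) (hU : U ∈ unitaryGroup (Fin 4) ℂ) (b : Fin 4 → ℂ) (s t : ℂ) :
    G U b s t t s = mm U 0 3 0 1 * ((s + b 0) * (s + b 1) * ((t + b 2) * (t + b 3)))
      + mm U 0 3 0 2 * ((s + b 0) * (s + b 2) * ((t + b 1) * (t + b 3)))
      + mm U 0 3 0 3 * ((s + b 0) * (s + b 3) * ((t + b 1) * (t + b 2)))
      + mm U 0 3 1 2 * ((s + b 1) * (s + b 2) * ((t + b 0) * (t + b 3)))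
      + mm U 0 3 1 3 * ((s + b 1) * (s + b 3) * ((t + b 0) * (t + b 2)))
      + mm U 0 3 2 3 * ((s + b 2) * (s + b 3) * ((t + b 0) * (t + b 1))) := by
  have h := DD_pair U hU 3 (by decide) b s t
  have e : (fun r : Fin 4 => if r = 0 then s else if r = 3 then s else t) = ![s, t, t, s] := by
    funext r
    fin_cases r <;> simp
  rw [e] at h
  exact h

/-- the total mass of the pairs -/
theorem total_mm (U : M4) (hU : U ∈ unitaryGroup (Fin 4) ℂ) (k : Fin 4) (hk : 0 ≠ k) :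
    mm U 0 k 0 1 + mm U 0 k 0 2 + mm U 0 k 0 3 + mm U 0 k 1 2 + mm U 0 k 1 3 + mm U 0 k 2 3
      = 1 := by
  have h := sum_mm_univ U hU 0 k hk
  simp only [Fin.sum_univ_four, mm_self] at h
  rw [mm_comm U 0 k 1 0, mm_comm U 0 k 2 0, mm_comm U 0 k 2 1, mm_comm U 0 k 3 0,
    mm_comm U 0 k 3 1, mm_comm U 0 k 3 2] at h
  linarith

/-- the column sums -/
theorem colsum_mm (U : M4) (hU : U ∈ unitaryGroup (Fin 4) ℂ) (j l : Fin 4) (hjl : j ≠ l) :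
    mm U 0 1 j l + mm U 0 2 j l + mm U 0 3 j l = P U 0 j + P U 0 l := by
  have h := sum_mm_col U hU 0 j l hjl
  rw [Fin.sum_univ_four] at h
  have h0 : mm U 0 0 j l = 0 := by
    unfold mm
    rw [show U 0 j * U 0 l - U 0 l * U 0 j = 0 by ring, map_zero]
  rw [h0] at h
  linarith

theorem DT_mem (U : M4) (hU : U ∈ unitaryGroup (Fin 4) ℂ) :
    (fun x : Pt => (G U x.2 (x.1 0) (x.1 1) (x.1 2) (x.1 3)
      + G U x.2 (x.1 1) (x.1 0) (x.1 3) (x.1 2)) / 2) ∈ HZ := by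
  have nn := fun k j l => mm_nonneg U 0 k j l
  have t1 := total_mm U hU 1 (by decide)
  have t2 := total_mm U hU 2 (by decide)
  have t3 := total_mm U hU 3 (by decide)
  have k01 := colsum_mm U hU 0 1 (by decide)
  have k23 := colsum_mm U hU 2 3 (by decide)
  have k02 := colsum_mm U hU 0 2 (by decide)
  have k13 := colsum_mm U hU 1 3 (by decide)
  have k03 := colsum_mm U hU 0 3 (by decide)
  have k12 := colsum_mm U hU 1 2 (by decide)
  have hn0 := row_norm U hU 0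
  rw [Fin.sum_univ_four] at hn0
  obtain ⟨f12, f13, f21, f23, f31, f32, p12, p13, p21, p23, p31, p32, e11, e12, e13, e21, e22,
    e23, e31, e32, e33⟩ := transp3 (mm U 0 1 0 1 + mm U 0 1 2 3) (mm U 0 1 0 2 + mm U 0 1 1 3)
    (mm U 0 1 0 3 + mm U 0 1 1 2) (mm U 0 2 0 1 + mm U 0 2 2 3) (mm U 0 2 0 2 + mm U 0 2 1 3)
    (mm U 0 2 0 3 + mm U 0 2 1 2) (mm U 0 3 0 1 + mm U 0 3 2 3) (mm U 0 3 0 2 + mm U 0 3 1 3)
    (mm U 0 3 0 3 + mm U 0 3 1 2) (add_nonneg (nn _ _ _) (nn _ _ _))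
    (add_nonneg (nn _ _ _) (nn _ _ _)) (add_nonneg (nn _ _ _) (nn _ _ _))
    (add_nonneg (nn _ _ _) (nn _ _ _)) (add_nonneg (nn _ _ _) (nn _ _ _))
    (add_nonneg (nn _ _ _) (nn _ _ _)) (add_nonneg (nn _ _ _) (nn _ _ _))
    (add_nonneg (nn _ _ _) (nn _ _ _)) (add_nonneg (nn _ _ _) (nn _ _ _))
    (by linarith) (by linarith) (by linarith) (by linarith) (by linarith) (by linarith)
  obtain ⟨a1, b1, a1', b1', q1, q2, q3, q4, m01, m23, g12, g13⟩ := transp2 (mm U 0 1 0 1)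
    (mm U 0 1 2 3) f12 f13 (nn _ _ _) (nn _ _ _) p12 p13 e11.symm
  obtain ⟨a2, b2, a2', b2', q5, q6, q7, q8, m02, m13, g21, g23⟩ := transp2 (mm U 0 1 0 2)
    (mm U 0 1 1 3) f21 f23 (nn _ _ _) (nn _ _ _) p21 p23 e12.symm
  obtain ⟨a3, b3, a3', b3', q9, q10, q11, q12, m03, m12, g31, g32⟩ := transp2 (mm U 0 1 0 3)
    (mm U 0 1 1 2) f31 f32 (nn _ _ _) (nn _ _ _) p31 p32 e13.symm
  have e : (fun x : Pt => (G U x.2 (x.1 0) (x.1 1) (x.1 2) (x.1 3)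
      + G U x.2 (x.1 1) (x.1 0) (x.1 3) (x.1 2)) / 2)
      = ∑ i : Fin 12, (![a1, b1, a1', b1', a2, b2, a2', b2', a3, b3, a3', b3'] i) •
        (![fun x => (zz 0 1 2 3 x + zz 1 0 3 2 x) / 2, fun x => (zz 0 1 3 2 x + zz 1 0 2 3 x) / 2,
          fun x => (zz 2 3 0 1 x + zz 3 2 1 0 x) / 2, fun x => (zz 2 3 1 0 x + zz 3 2 0 1 x) / 2,
          fun x => (zz 0 2 1 3 x + zz 2 0 3 1 x) / 2, fun x => (zz 0 2 3 1 x + zz 2 0 1 3 x) / 2,
          fun x => (zz 1 3 0 2 x + zz 3 1 2 0 x) / 2, fun x => (zz 1 3 2 0 x + zz 3 1 0 2 x) / 2,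
          fun x => (zz 0 3 1 2 x + zz 3 0 2 1 x) / 2, fun x => (zz 0 3 2 1 x + zz 3 0 1 2 x) / 2,
          fun x => (zz 1 2 0 3 x + zz 2 1 3 0 x) / 2,
          fun x => (zz 1 2 3 0 x + zz 2 1 0 3 x) / 2] i : Pt → ℂ) := by
    have M01 : ((mm U 0 1 0 1 : ℝ) : ℂ) = a1 + b1 := by rw [← m01]; push_cast; rfl
    have M23 : ((mm U 0 1 2 3 : ℝ) : ℂ) = a1' + b1' := by rw [← m23]; push_cast; rfl
    have M02 : ((mm U 0 1 0 2 : ℝ) : ℂ) = a2 + b2 := by rw [← m02]; push_cast; rfl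
    have M13 : ((mm U 0 1 1 3 : ℝ) : ℂ) = a2' + b2' := by rw [← m13]; push_cast; rfl
    have M03 : ((mm U 0 1 0 3 : ℝ) : ℂ) = a3 + b3 := by rw [← m03]; push_cast; rfl
    have M12 : ((mm U 0 1 1 2 : ℝ) : ℂ) = a3' + b3' := by rw [← m12]; push_cast; rfl
    have N21 : ((mm U 0 2 0 1 : ℝ) : ℂ) = (a2 + a2') + (a3 + a3') - mm U 0 2 2 3 := by
      have h : mm U 0 2 0 1 = (a2 + a2') + (a3 + a3') - mm U 0 2 2 3 := by linarith
      rw [h]; push_cast; rfl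
    have N22 : ((mm U 0 2 0 2 : ℝ) : ℂ) = (a1 + a1') + (b3 + b3') - mm U 0 2 1 3 := by
      have h : mm U 0 2 0 2 = (a1 + a1') + (b3 + b3') - mm U 0 2 1 3 := by linarith
      rw [h]; push_cast; rfl
    have N23 : ((mm U 0 2 0 3 : ℝ) : ℂ) = (b1 + b1') + (b2 + b2') - mm U 0 2 1 2 := by
      have h : mm U 0 2 0 3 = (b1 + b1') + (b2 + b2') - mm U 0 2 1 2 := by linarith
      rw [h]; push_cast; rfl
    have N31 : ((mm U 0 3 0 1 : ℝ) : ℂ) = (b2 + b2') + (b3 + b3') - mm U 0 3 2 3 := by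
      have h : mm U 0 3 0 1 = (b2 + b2') + (b3 + b3') - mm U 0 3 2 3 := by linarith
      rw [h]; push_cast; rfl
    have N32 : ((mm U 0 3 0 2 : ℝ) : ℂ) = (b1 + b1') + (a3 + a3') - mm U 0 3 1 3 := by
      have h : mm U 0 3 0 2 = (b1 + b1') + (a3 + a3') - mm U 0 3 1 3 := by linarith
      rw [h]; push_cast; rfl
    have N33 : ((mm U 0 3 0 3 : ℝ) : ℂ) = (a1 + a1') + (a2 + a2') - mm U 0 3 1 2 := by
      have h : mm U 0 3 0 3 = (a1 + a1') + (a2 + a2') - mm U 0 3 1 2 := by linarith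
      rw [h]; push_cast; rfl
    funext x
    rw [pol22]
    simp only [G_pair1 U hU, G_pair2 U hU, G_pair3 U hU]
    rw [Finset.sum_apply]
    simp only [Fin.sum_univ_succ, Fin.sum_univ_zero]
    simp [zz]
    rw [M01, M23, M02, M13, M03, M12, N21, N22, N23, N31, N32, N33]
    ring
  rw [e]
  apply convex_HZ.sum_mem
  · intro i _
    fin_cases i <;> assumption
  · simp only [Fin.sum_univ_succ, Fin.sum_univ_zero]
    simp
    linarith
  · intro i _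
    fin_cases i <;> exact mid_mem (zz_mem _ _ _ _ (by decide)) (zz_mem _ _ _ _ (by decide))

end Pool.Agent.Helper2.GM
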