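import Mathlib

/-!
Project GM, module Flow: splitting the masses of pairs (a real form of Landau's theorem on
tournament scores).

Proof.  The set `K` of all `W ≥ 0` with `W j l + W l j = m j l` is compact and contains `m / 2`.
Take a minimum of `Φ(W) = ∑ j, (∑ l, W j l - p j)^2` on `K` and put `δ j = ∑ l, W j l - p j`;
`∑ δ = 0` by `htot`.  If `δ ≠ 0`, let `D > 0` be the maximum of `δ` and `J = {j : δ j = D}`.
For `j ∈ J`, `l ∉ J` we have `W j l = 0`: otherwise move `ε = min (W j l) ((δ j - δ l)/2)` from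
`(j,l)` to `(l,j)`, which changes `Φ` by `-2ε(δ j - δ l) + 2ε² < 0`.  So
`∑ j ∈ J, ∑ l, W j l = ∑ j ∈ J, ∑ l ∈ J, W j l = (∑ j ∈ J, ∑ l ∈ J, m j l)/2 ≤ ∑ j ∈ J, p j`,
hence `∑ j ∈ J, δ j ≤ 0`, a contradiction.
-/

set_option autoImplicit false

namespace Pool.Agent.Helper2.GM

/-- the admissible splittings -/
private def flK {ι : Type*} (m : ι → ι → ℝ) : Set (ι → ι → ℝ) :=
  {W | (∀ j l, 0 ≤ W j l) ∧ ∀ j l, W j l + W l j = m j l}

private theorem flK_compact {ι : Type*} [Fintype ι] (m : ι → ι → ℝ) : IsCompact (flK m) := by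
  have h1 : IsCompact (Set.univ.pi fun j : ι => Set.univ.pi fun l : ι => Set.Icc (0 : ℝ) (m j l)) :=
    isCompact_univ_pi fun j => isCompact_univ_pi fun l => isCompact_Icc
  refine h1.of_isClosed_subset ?_ ?_
  · have e : flK m = (⋂ (j) (l), {W : ι → ι → ℝ | 0 ≤ W j l}) ∩
        ⋂ (j) (l), {W : ι → ι → ℝ | W j l + W l j = m j l} := by
      ext W
      simp only [flK, Set.mem_inter_iff, Set.mem_iInter]
      rfl
    rw [e]
    have hc : ∀ j l : ι, Continuous fun W : ι → ι → ℝ => W j l := fun j l =>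
      (continuous_apply l).comp (continuous_apply j)
    refine IsClosed.inter ?_ ?_
    · exact isClosed_iInter fun j => isClosed_iInter fun l => isClosed_le continuous_const (hc j l)
    · exact isClosed_iInter fun j => isClosed_iInter fun l =>
        isClosed_eq ((hc j l).add (hc l j)) continuous_const
  · rintro W ⟨h2, h3⟩
    rw [Set.mem_univ_pi]
    intro j
    rw [Set.mem_univ_pi]
    intro l
    refine ⟨h2 j l, ?_⟩
    rw [← h3 j l]
    linarith [h2 l j]

/-- the exchange step -/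
private theorem fl_exchange {ι : Type*} [Fintype ι] [DecidableEq ι] (p : ι → ℝ) (m : ι → ι → ℝ)
    {W : ι → ι → ℝ} (hW : W ∈ flK m)
    (hmin : ∀ V ∈ flK m, ∑ j, (∑ l, W j l - p j) ^ 2 ≤ ∑ j, (∑ l, V j l - p j) ^ 2) {j l : ι}
    (hj : 0 < ∑ b, W j b - p j) (hl : ∑ b, W l b - p l ≤ 0) : W j l = 0 := by
  by_contra hne
  have hpos : 0 < W j l := lt_of_le_of_ne (hW.1 j l) (Ne.symm hne)
  have hjl : j ≠ l := by
    rintro rfl
    linarith
  set δ : ι → ℝ := fun a => ∑ b, W a b - p a with hδ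
  have hj' : 0 < δ j := hj
  have hl' : δ l ≤ 0 := hl
  set ε : ℝ := min (W j l) ((δ j - δ l) / 2) with hε
  have hε0 : 0 < ε := lt_min hpos (by linarith)
  have hε1 : ε ≤ W j l := min_le_left _ _
  have hε2 : ε ≤ (δ j - δ l) / 2 := min_le_right _ _
  let V : ι → ι → ℝ := fun a b => W a b + (if a = j ∧ b = l then -ε else 0) +
    (if a = l ∧ b = j then ε else 0)
  have hV : V ∈ flK m := by
    refine ⟨fun a b => ?_, fun a b => ?_⟩
    · have h0 := hW.1 a b
      by_cases h1 : a = j ∧ b = l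
      · obtain ⟨rfl, rfl⟩ := h1
        have h2 : ¬ (a = b ∧ b = a) := fun h => hjl h.1
        simp only [V, and_self, if_true, if_neg h2]
        linarith
      · simp only [V, if_neg h1]
        split_ifs <;> linarith
    · have h0 := hW.2 a b
      have e1 : (b = j ∧ a = l) ↔ (a = l ∧ b = j) := and_comm
      have e2 : (b = l ∧ a = j) ↔ (a = j ∧ b = l) := and_comm
      simp only [V, e1, e2]
      split_ifs <;> linarith
  have hrow : ∀ a, ∑ b, V a b - p a = δ a + (if a = j then -ε else 0) + (if a = l then ε else 0) := by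
    intro a
    have h1 : ∑ b, (if a = j ∧ b = l then -ε else 0) = if a = j then -ε else 0 := by
      by_cases h : a = j
      · simp [h]
      · simp [h]
    have h2 : ∑ b, (if a = l ∧ b = j then ε else 0) = if a = l then ε else 0 := by
      by_cases h : a = l
      · simp [h]
      · simp [h]
    simp only [V]
    rw [Finset.sum_add_distrib, Finset.sum_add_distrib, h1, h2, hδ]
    ring
  have hpt : ∀ a, (∑ b, V a b - p a) ^ 2 = δ a ^ 2 +
      (if a = j then -2 * ε * δ j + ε ^ 2 else 0) + (if a = l then 2 * ε * δ l + ε ^ 2 else 0) := by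
    intro a
    rw [hrow]
    by_cases h1 : a = j
    · subst h1
      rw [if_pos rfl, if_pos rfl, if_neg hjl, if_neg hjl]
      ring
    · by_cases h2 : a = l
      · subst h2
        rw [if_neg h1, if_pos rfl, if_neg h1, if_pos rfl]
        ring
      · rw [if_neg h1, if_neg h2, if_neg h1, if_neg h2]
        ring
  have h3 := hmin V hV
  have h4 : ∑ a, (∑ b, V a b - p a) ^ 2 = ∑ a, δ a ^ 2 + (-2 * ε * δ j + ε ^ 2) +
      (2 * ε * δ l + ε ^ 2) := by
    rw [Finset.sum_congr rfl fun a _ => hpt a, Finset.sum_add_distrib, Finset.sum_add_distrib,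
      Finset.sum_ite_eq', Finset.sum_ite_eq', if_pos (Finset.mem_univ _),
      if_pos (Finset.mem_univ _)]
  rw [h4] at h3
  have h5 : ∑ a, (∑ b, W a b - p a) ^ 2 = ∑ a, δ a ^ 2 := rfl
  rw [h5] at h3
  nlinarith

theorem landau {ι : Type*} [Fintype ι] [DecidableEq ι] (p : ι → ℝ) (m : ι → ι → ℝ)
    (hm : ∀ j l, 0 ≤ m j l) (hs : ∀ j l, m j l = m l j)
    (hJ : ∀ J : Finset ι, ∑ j ∈ J, ∑ l ∈ J, m j l ≤ 2 * ∑ j ∈ J, p j)
    (htot : ∑ j, ∑ l, m j l = 2 * ∑ j, p j) :
    ∃ W : ι → ι → ℝ, (∀ j l, 0 ≤ W j l) ∧ (∀ j l, W j l + W l j = m j l) ∧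
      ∀ j, ∑ l, W j l = p j := by
  have hne : (flK m).Nonempty := by
    refine ⟨fun j l => m j l / 2, fun j l => by linarith [hm j l], fun j l => ?_⟩
    change m j l / 2 + m l j / 2 = m j l
    rw [← hs j l]
    ring
  have hcont : ContinuousOn (fun W : ι → ι → ℝ => ∑ j, (∑ l, W j l - p j) ^ 2) (flK m) := by
    apply Continuous.continuousOn
    refine continuous_finsetSum _ fun j _ => ?_
    refine Continuous.pow (Continuous.sub ?_ continuous_const) 2
    exact continuous_finsetSum _ fun l _ => (continuous_apply l).comp (continuous_apply j)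
  obtain ⟨W, hW, hmin⟩ := (flK_compact m).exists_isMinOn hne hcont
  have hmin' : ∀ V ∈ flK m, ∑ j, (∑ l, W j l - p j) ^ 2 ≤ ∑ j, (∑ l, V j l - p j) ^ 2 :=
    fun V hV => hmin hV
  have hhalf : ∀ J : Finset ι, 2 * ∑ j ∈ J, ∑ l ∈ J, W j l = ∑ j ∈ J, ∑ l ∈ J, m j l := by
    intro J
    have h1 : ∑ j ∈ J, ∑ l ∈ J, W j l = ∑ j ∈ J, ∑ l ∈ J, W l j := Finset.sum_comm
    have h2 : ∑ j ∈ J, ∑ l ∈ J, m j l = ∑ j ∈ J, ∑ l ∈ J, (W j l + W l j) :=
      Finset.sum_congr rfl fun j _ => Finset.sum_congr rfl fun l _ => (hW.2 j l).symm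
    rw [h2]
    simp only [Finset.sum_add_distrib]
    rw [← h1]
    ring
  have hle : ∀ j, ∑ l, W j l - p j ≤ 0 := by
    by_contra hcon
    push Not at hcon
    obtain ⟨j0, hj0⟩ := hcon
    set J : Finset ι := Finset.univ.filter fun j => 0 < ∑ l, W j l - p j with hJdef
    have hmem : ∀ j, j ∈ J ↔ 0 < ∑ l, W j l - p j := fun j => by
      rw [hJdef, Finset.mem_filter]
      exact ⟨fun h => h.2, fun h => ⟨Finset.mem_univ _, h⟩⟩
    have hrow : ∀ j ∈ J, ∑ l, W j l = ∑ l ∈ J, W j l := by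
      intro j hj
      refine (Finset.sum_subset (Finset.subset_univ J) fun l _ hl => ?_).symm
      refine fl_exchange p m hW hmin' ((hmem j).1 hj) ?_
      exact not_lt.1 fun h => hl ((hmem l).2 h)
    have h1 : ∑ j ∈ J, (∑ l, W j l - p j) ≤ 0 := by
      rw [Finset.sum_sub_distrib, Finset.sum_congr rfl hrow]
      have h2 := hhalf J
      have h3 := hJ J
      linarith
    have h4 : 0 < ∑ j ∈ J, (∑ l, W j l - p j) :=
      Finset.sum_pos (fun j hj => (hmem j).1 hj) ⟨j0, (hmem j0).2 hj0⟩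
    linarith
  have hsum : ∑ j, (∑ l, W j l - p j) = 0 := by
    rw [Finset.sum_sub_distrib]
    have h2 := hhalf Finset.univ
    linarith
  have hzero : ∀ j, ∑ l, W j l - p j = 0 := by
    intro j
    exact (Finset.sum_eq_zero_iff_of_nonpos fun i _ => hle i).1 hsum j (Finset.mem_univ j)
  exact ⟨W, hW.1, hW.2, fun j => by linarith [hzero j]⟩

end Pool.Agent.Helper2.GM
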