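import Pool.Agent.Helper2.GM.Pol
import Pool.Agent.Helper2.GM.Flow

/-!
Project GM: the mean over a transposition.
-/

set_option autoImplicit false

namespace Pool.Agent.Helper2.GM

open Matrix Complex Equiv

/-- the weights of a pair of rows -/
theorem exists_W (U : M4) (hU : U ∈ unitaryGroup (Fin 4) ℂ) :
    ∃ W : Fin 4 → Fin 4 → ℝ, (∀ j l, 0 ≤ W j l) ∧ (∀ j l, W j l + W l j = mm U 2 3 j l) ∧
      (∀ j, ∑ l, W j l = P U 2 j) ∧ (∀ l, ∑ j, W j l = P U 3 l) ∧ ∀ j, W j j = 0 := by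
  obtain ⟨W, h0, h1, h2⟩ := landau (P U 2) (mm U 2 3) (fun j l => mm_nonneg U 2 3 j l)
    (fun j l => mm_comm U 2 3 j l) (fun J => sum_mm_le U hU 2 3 J)
    (by rw [sum_mm_univ U hU 2 3 (by decide), row_norm U hU 2]; norm_num)
  refine ⟨W, h0, h1, h2, ?_, ?_⟩
  · intro l
    have h3 := sum_mm_row U hU 2 3 (by decide) l
    have h4 : ∑ j, mm U 2 3 l j = ∑ j, W l j + ∑ j, W j l := by
      rw [← Finset.sum_add_distrib]
      exact Finset.sum_congr rfl fun j _ => (h1 l j).symm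
    rw [h4, h2] at h3
    linarith
  · intro j
    have h3 := h1 j j
    rw [mm_self] at h3
    linarith

theorem G_tt (U : M4) (hU : U ∈ unitaryGroup (Fin 4) ℂ) (W : Fin 4 → Fin 4 → ℝ)
    (h1 : ∀ j l, W j l + W l j = mm U 2 3 j l) (h2 : ∀ j, ∑ l, W j l = P U 2 j)
    (h3 : ∀ l, ∑ j, W j l = P U 3 l) (h4 : ∀ j, W j j = 0) (b : Fin 4 → ℂ) (t a2 a3 : ℂ) :
    G U b t t a2 a3 = W 0 1 * ((a2 + b 0) * (a3 + b 1) * (t + b 2) * (t + b 3))
      + W 0 2 * ((a2 + b 0) * (a3 + b 2) * (t + b 1) * (t + b 3))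
      + W 0 3 * ((a2 + b 0) * (a3 + b 3) * (t + b 1) * (t + b 2))
      + W 1 0 * ((a2 + b 1) * (a3 + b 0) * (t + b 2) * (t + b 3))
      + W 1 2 * ((a2 + b 1) * (a3 + b 2) * (t + b 0) * (t + b 3))
      + W 1 3 * ((a2 + b 1) * (a3 + b 3) * (t + b 0) * (t + b 2))
      + W 2 0 * ((a2 + b 2) * (a3 + b 0) * (t + b 1) * (t + b 3))
      + W 2 1 * ((a2 + b 2) * (a3 + b 1) * (t + b 0) * (t + b 3))
      + W 2 3 * ((a2 + b 2) * (a3 + b 3) * (t + b 0) * (t + b 1))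
      + W 3 0 * ((a2 + b 3) * (a3 + b 0) * (t + b 1) * (t + b 2))
      + W 3 1 * ((a2 + b 3) * (a3 + b 1) * (t + b 0) * (t + b 2))
      + W 3 2 * ((a2 + b 3) * (a3 + b 2) * (t + b 0) * (t + b 1)) := by
  have h := DD_two U hU 2 3 (by decide) t a2 a3 b
  have e : (fun r : Fin 4 => if r = 2 then a2 else if r = 3 then a3 else t) = ![t, t, a2, a3] := by
    funext r
    fin_cases r <;> simp
  rw [e] at h
  have hs := row_norm U hU 2
  have hs' : (∑ j, ∑ l, (W j l : ℂ)) = 1 := by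
    have : ∑ j, ∑ l, W j l = 1 := by
      rw [← hs]
      exact Finset.sum_congr rfl fun j _ => h2 j
    exact_mod_cast this
  have g2 : ∀ j, ((P U 2 j : ℝ) : ℂ) = ∑ l, (W j l : ℂ) := by
    intro j
    rw [← h2 j]
    push_cast
    rfl
  have g3 : ∀ l, ((P U 3 l : ℝ) : ℂ) = ∑ j, (W j l : ℂ) := by
    intro l
    rw [← h3 l]
    push_cast
    rfl
  have g1 : ∀ j l, ((mm U 2 3 j l : ℝ) : ℂ) = W j l + W l j := by
    intro j l
    rw [← h1 j l]
    push_cast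
    rfl
  have g4 : ∀ j, ((W j j : ℝ) : ℂ) = 0 := by
    intro j
    rw [h4 j]
    simp
  unfold G
  rw [h]
  simp only [g1, g2, g3]
  simp only [Fin.sum_univ_four, g4] at hs' ⊢
  linear_combination (-((t + b 0) * (t + b 1) * (t + b 2) * (t + b 3))) * hs'

/-- tables of the complementary indices -/
def cA : Fin 4 → Fin 4 → Fin 4 := ![![1, 2, 1, 1], ![2, 0, 0, 0], ![1, 0, 0, 0], ![1, 0, 0, 0]]
def cB : Fin 4 → Fin 4 → Fin 4 := ![![2, 3, 3, 2], ![3, 2, 3, 2], ![3, 3, 1, 1], ![2, 2, 1, 1]]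

theorem cAB_inj : ∀ j l : Fin 4, j ≠ l → Function.Injective ![cA j l, cB j l, j, l] ∧
    Function.Injective ![cB j l, cA j l, j, l] := by
  decide

theorem TT_mem (U : M4) (hU : U ∈ unitaryGroup (Fin 4) ℂ) :
    (fun x : Pt => (G U x.2 (x.1 0) (x.1 1) (x.1 2) (x.1 3)
      + G U x.2 (x.1 1) (x.1 0) (x.1 2) (x.1 3)) / 2) ∈ HZ := by
  obtain ⟨W, h0, h1, h2, h3, h4⟩ := exists_W U hU
  have e : (fun x : Pt => (G U x.2 (x.1 0) (x.1 1) (x.1 2) (x.1 3)
      + G U x.2 (x.1 1) (x.1 0) (x.1 2) (x.1 3)) / 2)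
      = ∑ q : Fin 4 × Fin 4, (W q.1 q.2) • (fun x : Pt => if q.1 = q.2 then zz 0 1 2 3 x else
          (zz (cA q.1 q.2) (cB q.1 q.2) q.1 q.2 x + zz (cB q.1 q.2) (cA q.1 q.2) q.1 q.2 x) / 2) := by
    funext x
    rw [pol2]
    simp only [G_tt U hU W h1 h2 h3 h4]
    rw [Finset.sum_apply, Fintype.sum_prod_type]
    simp only [Fin.sum_univ_four, Pi.smul_apply, Complex.real_smul, zz, cA, cB,
      Matrix.cons_val_zero, Matrix.cons_val_one, Matrix.cons_val]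
    simp only [h4, Complex.ofReal_zero, zero_mul]
    simp [Fin.ext_iff]
    ring
  rw [e]
  apply convex_HZ.sum_mem
  · intro q _; exact h0 _ _
  · rw [Fintype.sum_prod_type]
    rw [← row_norm U hU 2]
    exact Finset.sum_congr rfl fun j _ => h2 j
  · intro q _
    by_cases hq : q.1 = q.2
    · simp only [hq, if_true]
      exact zz_mem _ _ _ _ (by decide)
    · simp only [hq, if_false]
      exact mid_mem (zz_mem _ _ _ _ (cAB_inj _ _ hq).1) (zz_mem _ _ _ _ (cAB_inj _ _ hq).2)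

end Pool.Agent.Helper2.GM
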