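import Pool.Agent.Helper2.GM.Grp
import Pool.Agent.Helper2.GM.T
import Pool.Agent.Helper2.GM.DT
import Pool.Agent.Helper2.GM.C3P
import Pool.Agent.Helper2.GM.C4P

/-!
Project GM: reduction to four permutations.
-/

set_option autoImplicit false

namespace Pool.Agent.Helper2.GM

open Matrix Complex Equiv

/-- relabelling the rows -/
theorem DD_relabel (U : M4) (ρ : Perm (Fin 4)) (a b : Fin 4 → ℂ) :
    DD (U.submatrix ρ id) (a ∘ ρ) b = DD U a b := by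
  unfold DD
  have e : diagonal (a ∘ ρ) + U.submatrix ρ id * diagonal b * star (U.submatrix ρ id)
      = (diagonal a + U * diagonal b * star U).submatrix ρ ρ := by
    ext i j
    have h1 : (U.submatrix ρ id * diagonal b * star (U.submatrix ρ id)) i j
        = (U * diagonal b * star U) (ρ i) (ρ j) := by
      simp [Matrix.mul_apply, star_apply]
    rw [Matrix.add_apply, h1, submatrix_apply, Matrix.add_apply]
    congr 1
    by_cases h : i = j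
    · subst h
      simp
    · rw [diagonal_apply_ne _ h, diagonal_apply_ne _ (fun h' => h (ρ.injective h'))]
  rw [e, det_submatrix_equiv_self]

theorem unitary_relabel (U : M4) (hU : U ∈ unitaryGroup (Fin 4) ℂ) (ρ : Perm (Fin 4)) :
    U.submatrix ρ id ∈ unitaryGroup (Fin 4) ℂ := by
  rw [mem_unitaryGroup_iff] at hU ⊢
  have e : U.submatrix ρ id * star (U.submatrix ρ id) = (U * star U).submatrix ρ ρ := by
    ext i j
    simp [Matrix.mul_apply, star_apply]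
  rw [e, hU]
  exact submatrix_one_equiv ρ

theorem DD_comp (U : M4) (a b : Fin 4 → ℂ) (d : Perm (Fin 4)) :
    DD U (a ∘ d) b = G U b (a (d 0)) (a (d 1)) (a (d 2)) (a (d 3)) := by
  unfold G
  congr 1
  funext i
  fin_cases i <;> rfl

theorem DD_id (U : M4) (a b : Fin 4 → ℂ) : DD U a b = G U b (a 0) (a 1) (a 2) (a 3) := by
  unfold G
  congr 1
  funext i
  fin_cases i <;> rfl

/-- the double transposition -/
def d2 : Perm (Fin 4) := swap 0 1 * swap 2 3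

/-- the 3-cycle -/
def d3 : Perm (Fin 4) := swap 1 2 * swap 2 3

/-- the 4-cycle -/
def d4 : Perm (Fin 4) := swap 0 1 * (swap 1 2 * swap 2 3)

theorem cls : ∀ c : Perm (Fin 4), c ≠ 1 →
    ∃ ρ : Perm (Fin 4), c * ρ = ρ * swap 0 1 ∨ c * ρ = ρ * d2 ∨ c * ρ = ρ * d3 ∨
      c * ρ = ρ * d4 := by
  decide +kernel

theorem comp_eq (c ρ d : Perm (Fin 4)) (h : c * ρ = ρ * d) (a : Fin 4 → ℂ) :
    (a ∘ c) ∘ ρ = (a ∘ ρ) ∘ d := by
  funext i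
  have := congrArg (fun p : Perm (Fin 4) => a (p i)) h
  exact this

/-- **The mean of two relabellings lies in the hull.** -/
theorem pair_mem (U : M4) (hU : U ∈ unitaryGroup (Fin 4) ℂ) (c : Perm (Fin 4)) (h1 : c ≠ 1) :
    (fun x : Pt => (DD U x.1 x.2 + DD U (x.1 ∘ c) x.2) / 2) ∈ HZ := by
  obtain ⟨ρ, hρ | hρ | hρ | hρ⟩ := cls c h1
  · have h := T_mem (TT_mem _ (unitary_relabel U hU ρ)) ρ
    convert h using 1
    funext x
    change (DD U x.1 x.2 + DD U (x.1 ∘ c) x.2) / 2 = (G (U.submatrix ρ id) x.2 ((x.1 ∘ ρ) 0)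
      ((x.1 ∘ ρ) 1) ((x.1 ∘ ρ) 2) ((x.1 ∘ ρ) 3) + G (U.submatrix ρ id) x.2 ((x.1 ∘ ρ) 1)
      ((x.1 ∘ ρ) 0) ((x.1 ∘ ρ) 2) ((x.1 ∘ ρ) 3)) / 2
    rw [← DD_relabel U ρ x.1, ← DD_relabel U ρ (x.1 ∘ c), comp_eq c ρ _ hρ,
      DD_comp _ (x.1 ∘ ρ) x.2 (swap 0 1), DD_id _ (x.1 ∘ ρ), show swap (0 : Fin 4) 1 0 = 1 by decide,
      show swap (0 : Fin 4) 1 1 = 0 by decide, show swap (0 : Fin 4) 1 2 = 2 by decide,
      show swap (0 : Fin 4) 1 3 = 3 by decide]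
  · have h := T_mem (DT_mem _ (unitary_relabel U hU ρ)) ρ
    convert h using 1
    funext x
    change (DD U x.1 x.2 + DD U (x.1 ∘ c) x.2) / 2 = (G (U.submatrix ρ id) x.2 ((x.1 ∘ ρ) 0)
      ((x.1 ∘ ρ) 1) ((x.1 ∘ ρ) 2) ((x.1 ∘ ρ) 3) + G (U.submatrix ρ id) x.2 ((x.1 ∘ ρ) 1)
      ((x.1 ∘ ρ) 0) ((x.1 ∘ ρ) 3) ((x.1 ∘ ρ) 2)) / 2
    rw [← DD_relabel U ρ x.1, ← DD_relabel U ρ (x.1 ∘ c), comp_eq c ρ _ hρ,
      DD_comp _ (x.1 ∘ ρ) x.2 d2, DD_id _ (x.1 ∘ ρ), show d2 0 = 1 by decide,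
      show d2 1 = 0 by decide, show d2 2 = 3 by decide, show d2 3 = 2 by decide]
  · have h := T_mem (C3P_mem _ (unitary_relabel U hU ρ)) ρ
    convert h using 1
    funext x
    change (DD U x.1 x.2 + DD U (x.1 ∘ c) x.2) / 2 = (G (U.submatrix ρ id) x.2 ((x.1 ∘ ρ) 0)
      ((x.1 ∘ ρ) 1) ((x.1 ∘ ρ) 2) ((x.1 ∘ ρ) 3) + G (U.submatrix ρ id) x.2 ((x.1 ∘ ρ) 0)
      ((x.1 ∘ ρ) 2) ((x.1 ∘ ρ) 3) ((x.1 ∘ ρ) 1)) / 2
    rw [← DD_relabel U ρ x.1, ← DD_relabel U ρ (x.1 ∘ c), comp_eq c ρ _ hρ,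
      DD_comp _ (x.1 ∘ ρ) x.2 d3, DD_id _ (x.1 ∘ ρ), show d3 0 = 0 by decide,
      show d3 1 = 2 by decide, show d3 2 = 3 by decide, show d3 3 = 1 by decide]
  · have h := T_mem (C4_mem _ (unitary_relabel U hU ρ)) ρ
    convert h using 1
    funext x
    change (DD U x.1 x.2 + DD U (x.1 ∘ c) x.2) / 2 = (G (U.submatrix ρ id) x.2 ((x.1 ∘ ρ) 0)
      ((x.1 ∘ ρ) 1) ((x.1 ∘ ρ) 2) ((x.1 ∘ ρ) 3) + G (U.submatrix ρ id) x.2 ((x.1 ∘ ρ) 1)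
      ((x.1 ∘ ρ) 2) ((x.1 ∘ ρ) 3) ((x.1 ∘ ρ) 0)) / 2
    rw [← DD_relabel U ρ x.1, ← DD_relabel U ρ (x.1 ∘ c), comp_eq c ρ _ hρ,
      DD_comp _ (x.1 ∘ ρ) x.2 d4, DD_id _ (x.1 ∘ ρ), show d4 0 = 1 by decide,
      show d4 1 = 2 by decide, show d4 2 = 3 by decide, show d4 3 = 0 by decide]

/-- two different relabellings -/
theorem two_mem (U : M4) (hU : U ∈ unitaryGroup (Fin 4) ℂ) (g h : Perm (Fin 4)) (hgh : g ≠ h) :
    (fun x : Pt => (DD U (x.1 ∘ g) x.2 + DD U (x.1 ∘ h) x.2) / 2) ∈ HZ := by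
  have h1 : g⁻¹ * h ≠ 1 := by
    intro h2
    exact hgh (inv_mul_eq_one.1 h2)
  have h3 := T_mem (pair_mem U hU (g⁻¹ * h) h1) g
  convert h3 using 1
  funext x
  change (DD U (x.1 ∘ g) x.2 + DD U (x.1 ∘ h) x.2) / 2
    = (DD U (x.1 ∘ g) x.2 + DD U ((x.1 ∘ g) ∘ (g⁻¹ * h : Perm (Fin 4))) x.2) / 2
  have e : (x.1 ∘ g) ∘ (g⁻¹ * h : Perm (Fin 4)) = x.1 ∘ h := by
    funext i
    simp [Function.comp, Perm.mul_apply]
  rw [e]

end Pool.Agent.Helper2.GM
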