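import Pool.Agent.Helper2.GM.Exp
import Pool.Agent.Helper2.GM.Flow

/-!
Project GM: combinations of the 24 products, 3×3 decompositions, weights of pairs of rows.
-/

set_option autoImplicit false

namespace Pool.Agent.Helper2.GM

open Matrix Complex Equiv

/-- `f` is a combination of the 24 products with nonnegative weights of sum `t` -/
def InC (t : ℝ) (f : Pt → ℂ) : Prop :=
  ∃ g : Perm (Fin 4) → ℝ, (∀ σ, 0 ≤ g σ) ∧ ∑ σ, g σ = t ∧ f = fun x => ∑ σ, (g σ : ℂ) * Z σ x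

theorem InC.add {s t : ℝ} {f h : Pt → ℂ} (hf : InC s f) (hh : InC t h) :
    InC (s + t) (fun x => f x + h x) := by
  obtain ⟨g, h1, h2, h3⟩ := hf
  obtain ⟨g', h1', h2', h3'⟩ := hh
  refine ⟨fun σ => g σ + g' σ, fun σ => add_nonneg (h1 σ) (h1' σ), ?_, ?_⟩
  · rw [Finset.sum_add_distrib, h2, h2']
  · funext x
    rw [h3, h3', ← Finset.sum_add_distrib]
    refine Finset.sum_congr rfl fun σ _ => ?_
    push_cast
    ring

theorem InC_zz (w : ℝ) (hw : 0 ≤ w) (m0 m1 m2 m3 : Fin 4)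
    (h : Function.Injective ![m0, m1, m2, m3]) : InC w (fun x => (w : ℂ) * zz m0 m1 m2 m3 x) := by
  classical
  have hb : Function.Bijective ![m0, m1, m2, m3] := (Finite.injective_iff_bijective).1 h
  have e : zz m0 m1 m2 m3 = Z (Equiv.ofBijective _ hb) := by
    funext x
    unfold zz Z
    rw [Fin.prod_univ_four]
    simp [Equiv.ofBijective_apply]
  refine ⟨Pi.single (Equiv.ofBijective _ hb) w, fun σ => ?_, ?_, ?_⟩
  · by_cases h1 : σ = Equiv.ofBijective _ hb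
    · subst h1
      rw [Pi.single_eq_same]
      exact hw
    · rw [Pi.single_eq_of_ne h1]
  · rw [Finset.sum_pi_single']
    simp
  · funext x
    rw [e, Finset.sum_eq_single (Equiv.ofBijective _ hb)]
    · rw [Pi.single_eq_same]
    · intro σ _ h1
      rw [Pi.single_eq_of_ne h1]
      simp
    · intro h1
      exact absurd (Finset.mem_univ _) h1

theorem InC.mem {t : ℝ} {f : Pt → ℂ} (hf : InC t f) (ht : t = 1) : f ∈ HZ := by
  obtain ⟨g, h1, h2, h3⟩ := hf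
  have e : f = ∑ σ, g σ • Z σ := by
    rw [h3]
    funext x
    rw [Finset.sum_apply]
    refine Finset.sum_congr rfl fun σ _ => ?_
    rw [Pi.smul_apply, Complex.real_smul]
  rw [e]
  exact convex_HZ.sum_mem (fun σ _ => h1 σ) (by rw [h2, ht]) (fun σ _ => Z_mem σ)

/-- decomposition of a 3×3 matrix with equal line sums -/
theorem birk3 (n11 n12 n13 n21 n22 n23 n31 n32 n33 p : ℝ) (h11 : 0 ≤ n11) (h12 : 0 ≤ n12)
    (h13 : 0 ≤ n13) (h21 : 0 ≤ n21) (h22 : 0 ≤ n22) (h23 : 0 ≤ n23) (h31 : 0 ≤ n31)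
    (h32 : 0 ≤ n32) (h33 : 0 ≤ n33) (r1 : n11 + n12 + n13 = p) (r2 : n21 + n22 + n23 = p)
    (r3 : n31 + n32 + n33 = p) (c1 : n11 + n21 + n31 = p) (c2 : n12 + n22 + n32 = p)
    (c3 : n13 + n23 + n33 = p) :
    ∃ x1 x2 x3 x4 x5 x6 : ℝ, 0 ≤ x1 ∧ 0 ≤ x2 ∧ 0 ≤ x3 ∧ 0 ≤ x4 ∧ 0 ≤ x5 ∧ 0 ≤ x6 ∧
      n11 = x1 + x2 ∧ n12 = x3 + x4 ∧ n13 = x5 + x6 ∧
      n21 = x3 + x5 ∧ n22 = x1 + x6 ∧ n23 = x2 + x4 ∧
      n31 = x4 + x6 ∧ n32 = x2 + x5 ∧ n33 = x1 + x3 := by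
  obtain ⟨x, hx0, hx1, hx2, hx3, hx4, hx5⟩ : ∃ x : ℝ, 0 ≤ x ∧ n33 - n12 ≤ x ∧ n33 - n21 ≤ x ∧
      x ≤ n11 ∧ x ≤ n22 ∧ x ≤ n33 := by
    refine ⟨max 0 (max (n33 - n12) (n33 - n21)), le_max_left _ _,
      (le_max_left _ _).trans (le_max_right _ _), (le_max_right _ _).trans (le_max_right _ _),
      ?_, ?_, ?_⟩ <;>
    refine max_le (by linarith) (max_le (by linarith) (by linarith))
  exact ⟨x, n11 - x, n33 - x, n12 - n33 + x, n21 - n33 + x, n22 - x, hx0, by linarith,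
    by linarith, by linarith, by linarith, by linarith, by ring, by ring, by linarith, by ring,
    by ring, by linarith, by linarith, by linarith, by ring⟩

/-- the weights of a pair of rows -/
theorem exists_f (U : M4) (hU : U ∈ unitaryGroup (Fin 4) ℂ) (q : Fin 4) (hq : 0 ≠ q) :
    ∃ W : Fin 4 → Fin 4 → ℝ, (∀ j l, 0 ≤ W j l) ∧ (∀ j l, W j l + W l j = mm U 0 q j l) ∧
      (∀ j, W j 0 + W j 1 + W j 2 + W j 3 = P U 0 j) ∧ ∀ j, W j j = 0 := by
  obtain ⟨W, h0, h1, h2⟩ := landau (P U 0) (mm U 0 q) (fun j l => mm_nonneg U 0 q j l)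
    (fun j l => mm_comm U 0 q j l) (fun J => sum_mm_le U hU 0 q J)
    (by rw [sum_mm_univ U hU 0 q hq, row_norm U hU 0]; norm_num)
  refine ⟨W, h0, h1, ?_, ?_⟩
  · intro j
    have := h2 j
    rw [Fin.sum_univ_four] at this
    exact this
  · intro j
    have h3 := h1 j j
    rw [mm_self] at h3
    linarith

end Pool.Agent.Helper2.GM
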