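import Pool.Agent.Helper2.GM.Pol

/-!
Project GM: the expansion of `DD` in monomials.
-/

set_option autoImplicit false

namespace Pool.Agent.Helper2.GM

open Matrix Complex Equiv

/-- The polynomial with the coefficients `p` (single indices) and `m1`, `m2`, `m3` (pairs). -/
def Ph (p m1 m2 m3 : Fin 4 → Fin 4 → ℝ) (a b : Fin 4 → ℂ) : ℂ :=
  a 0 * a 1 * a 2 * a 3 + b 0 * b 1 * b 2 * b 3
    + a 1 * a 2 * a 3 * ((p 0 0 : ℂ) * b 0 + (p 0 1 : ℂ) * b 1 + (p 0 2 : ℂ) * b 2 + (p 0 3 : ℂ) * b 3)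
    + a 0 * a 2 * a 3 * ((p 1 0 : ℂ) * b 0 + (p 1 1 : ℂ) * b 1 + (p 1 2 : ℂ) * b 2 + (p 1 3 : ℂ) * b 3)
    + a 0 * a 1 * a 3 * ((p 2 0 : ℂ) * b 0 + (p 2 1 : ℂ) * b 1 + (p 2 2 : ℂ) * b 2 + (p 2 3 : ℂ) * b 3)
    + a 0 * a 1 * a 2 * ((p 3 0 : ℂ) * b 0 + (p 3 1 : ℂ) * b 1 + (p 3 2 : ℂ) * b 2 + (p 3 3 : ℂ) * b 3)
    + a 0 * ((p 0 0 : ℂ) * (b 1 * b 2 * b 3) + (p 0 1 : ℂ) * (b 0 * b 2 * b 3) + (p 0 2 : ℂ) * (b 0 * b 1 * b 3) + (p 0 3 : ℂ) * (b 0 * b 1 * b 2))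
    + a 1 * ((p 1 0 : ℂ) * (b 1 * b 2 * b 3) + (p 1 1 : ℂ) * (b 0 * b 2 * b 3) + (p 1 2 : ℂ) * (b 0 * b 1 * b 3) + (p 1 3 : ℂ) * (b 0 * b 1 * b 2))
    + a 2 * ((p 2 0 : ℂ) * (b 1 * b 2 * b 3) + (p 2 1 : ℂ) * (b 0 * b 2 * b 3) + (p 2 2 : ℂ) * (b 0 * b 1 * b 3) + (p 2 3 : ℂ) * (b 0 * b 1 * b 2))
    + a 3 * ((p 3 0 : ℂ) * (b 1 * b 2 * b 3) + (p 3 1 : ℂ) * (b 0 * b 2 * b 3) + (p 3 2 : ℂ) * (b 0 * b 1 * b 3) + (p 3 3 : ℂ) * (b 0 * b 1 * b 2))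
    + a 2 * a 3 * ((m1 0 1 : ℂ) * (b 0 * b 1) + (m1 0 2 : ℂ) * (b 0 * b 2) + (m1 0 3 : ℂ) * (b 0 * b 3) + (m1 1 2 : ℂ) * (b 1 * b 2) + (m1 1 3 : ℂ) * (b 1 * b 3) + (m1 2 3 : ℂ) * (b 2 * b 3))
    + a 0 * a 1 * ((m1 0 1 : ℂ) * (b 2 * b 3) + (m1 0 2 : ℂ) * (b 1 * b 3) + (m1 0 3 : ℂ) * (b 1 * b 2) + (m1 1 2 : ℂ) * (b 0 * b 3) + (m1 1 3 : ℂ) * (b 0 * b 2) + (m1 2 3 : ℂ) * (b 0 * b 1))
    + a 1 * a 3 * ((m2 0 1 : ℂ) * (b 0 * b 1) + (m2 0 2 : ℂ) * (b 0 * b 2) + (m2 0 3 : ℂ) * (b 0 * b 3) + (m2 1 2 : ℂ) * (b 1 * b 2) + (m2 1 3 : ℂ) * (b 1 * b 3) + (m2 2 3 : ℂ) * (b 2 * b 3))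
    + a 0 * a 2 * ((m2 0 1 : ℂ) * (b 2 * b 3) + (m2 0 2 : ℂ) * (b 1 * b 3) + (m2 0 3 : ℂ) * (b 1 * b 2) + (m2 1 2 : ℂ) * (b 0 * b 3) + (m2 1 3 : ℂ) * (b 0 * b 2) + (m2 2 3 : ℂ) * (b 0 * b 1))
    + a 1 * a 2 * ((m3 0 1 : ℂ) * (b 0 * b 1) + (m3 0 2 : ℂ) * (b 0 * b 2) + (m3 0 3 : ℂ) * (b 0 * b 3) + (m3 1 2 : ℂ) * (b 1 * b 2) + (m3 1 3 : ℂ) * (b 1 * b 3) + (m3 2 3 : ℂ) * (b 2 * b 3))
    + a 0 * a 3 * ((m3 0 1 : ℂ) * (b 2 * b 3) + (m3 0 2 : ℂ) * (b 1 * b 3) + (m3 0 3 : ℂ) * (b 1 * b 2) + (m3 1 2 : ℂ) * (b 0 * b 3) + (m3 1 3 : ℂ) * (b 0 * b 2) + (m3 2 3 : ℂ) * (b 0 * b 1))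

theorem two_val (U : M4) (hU : U ∈ unitaryGroup (Fin 4) ℂ) (b : Fin 4 → ℂ) (i k : Fin 4)
    (hik : i ≠ k) (t x y : ℂ) (v : Fin 4 → ℂ)
    (hv : (fun r => if r = i then x else if r = k then y else t) = v) :
    DD U v b
      = (t + b 0) * (t + b 1) * (t + b 2) * (t + b 3)
        + (x - t) * (P U i 0 * ((t + b 1) * (t + b 2) * (t + b 3))
          + P U i 1 * ((t + b 0) * (t + b 2) * (t + b 3))
          + P U i 2 * ((t + b 0) * (t + b 1) * (t + b 3))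
          + P U i 3 * ((t + b 0) * (t + b 1) * (t + b 2)))
        + (y - t) * (P U k 0 * ((t + b 1) * (t + b 2) * (t + b 3))
          + P U k 1 * ((t + b 0) * (t + b 2) * (t + b 3))
          + P U k 2 * ((t + b 0) * (t + b 1) * (t + b 3))
          + P U k 3 * ((t + b 0) * (t + b 1) * (t + b 2)))
        + (x - t) * (y - t) * (mm U i k 0 1 * ((t + b 2) * (t + b 3))
          + mm U i k 0 2 * ((t + b 1) * (t + b 3))
          + mm U i k 0 3 * ((t + b 1) * (t + b 2))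
          + mm U i k 1 2 * ((t + b 0) * (t + b 3))
          + mm U i k 1 3 * ((t + b 0) * (t + b 2))
          + mm U i k 2 3 * ((t + b 0) * (t + b 1))) := by
  rw [← hv]
  exact DD_two U hU i k hik t x y b

/-- real relations in a complex form -/
theorem relP (U : M4) (hU : U ∈ unitaryGroup (Fin 4) ℂ) (q j : Fin 4) (hq : 0 ≠ q) :
    (P U q j : ℂ) = mm U 0 q j 0 + mm U 0 q j 1 + mm U 0 q j 2 + mm U 0 q j 3 - P U 0 j := by
  have h := sum_mm_row U hU 0 q hq j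
  rw [Fin.sum_univ_four] at h
  have h2 : P U q j = mm U 0 q j 0 + mm U 0 q j 1 + mm U 0 q j 2 + mm U 0 q j 3 - P U 0 j := by
    linarith
  rw [h2]
  push_cast
  ring

theorem relT (U : M4) (hU : U ∈ unitaryGroup (Fin 4) ℂ) (q : Fin 4) (hq : 0 ≠ q) :
    (mm U 0 q 0 1 : ℂ) = 1 - mm U 0 q 0 2 - mm U 0 q 0 3 - mm U 0 q 1 2 - mm U 0 q 1 3
      - mm U 0 q 2 3 := by
  have h := sum_mm_univ U hU 0 q hq
  simp only [Fin.sum_univ_four, mm_self] at h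
  rw [mm_comm U 0 q 1 0, mm_comm U 0 q 2 0, mm_comm U 0 q 2 1, mm_comm U 0 q 3 0,
    mm_comm U 0 q 3 1, mm_comm U 0 q 3 2] at h
  have h2 : mm U 0 q 0 1 = 1 - mm U 0 q 0 2 - mm U 0 q 0 3 - mm U 0 q 1 2 - mm U 0 q 1 3
      - mm U 0 q 2 3 := by linarith
  rw [h2]
  push_cast
  ring

theorem colsum_mm' (U : M4) (hU : U ∈ unitaryGroup (Fin 4) ℂ) (j l : Fin 4) (hjl : j ≠ l) :
    mm U 0 1 j l + mm U 0 2 j l + mm U 0 3 j l = P U 0 j + P U 0 l := by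
  have h := sum_mm_col U hU 0 j l hjl
  rw [Fin.sum_univ_four] at h
  have h0 : mm U 0 0 j l = 0 := by
    unfold mm
    rw [show U 0 j * U 0 l - U 0 l * U 0 j = 0 by ring, map_zero]
  rw [h0] at h
  linarith

theorem relC (U : M4) (hU : U ∈ unitaryGroup (Fin 4) ℂ) (j l : Fin 4) (hjl : j ≠ l) :
    (mm U 0 3 j l : ℂ) = P U 0 j + P U 0 l - mm U 0 1 j l - mm U 0 2 j l := by
  have h := colsum_mm' U hU j l hjl
  have h2 : mm U 0 3 j l = P U 0 j + P U 0 l - mm U 0 1 j l - mm U 0 2 j l := by linarith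
  rw [h2]
  push_cast
  ring

theorem rel0 (U : M4) (hU : U ∈ unitaryGroup (Fin 4) ℂ) :
    (P U 0 0 : ℂ) = 1 - P U 0 1 - P U 0 2 - P U 0 3 := by
  have h := row_norm U hU 0
  rw [Fin.sum_univ_four] at h
  have h2 : P U 0 0 = 1 - P U 0 1 - P U 0 2 - P U 0 3 := by linarith
  rw [h2]
  push_cast
  ring

theorem DD_Ph (U : M4) (hU : U ∈ unitaryGroup (Fin 4) ℂ) (a b : Fin 4 → ℂ) :
    G U b (a 0) (a 1) (a 2) (a 3) = Ph (P U) (mm U 0 1) (mm U 0 2) (mm U 0 3) a b := by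
  have e : ∀ x y z w : ℂ, G U b x y z w
      = (1 - x) * ((1 - y) * ((1 - z) * ((1 - w) * G U b 0 0 0 0 + w * G U b 0 0 0 1)
            + z * ((1 - w) * G U b 0 0 1 0 + w * G U b 0 0 1 1))
          + y * ((1 - z) * ((1 - w) * G U b 0 1 0 0 + w * G U b 0 1 0 1)
            + z * ((1 - w) * G U b 0 1 1 0 + w * G U b 0 1 1 1)))
        + x * ((1 - y) * ((1 - z) * ((1 - w) * G U b 1 0 0 0 + w * G U b 1 0 0 1)
            + z * ((1 - w) * G U b 1 0 1 0 + w * G U b 1 0 1 1))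
          + y * ((1 - z) * ((1 - w) * G U b 1 1 0 0 + w * G U b 1 1 0 1)
            + z * ((1 - w) * G U b 1 1 1 0 + w * G U b 1 1 1 1))) := by
    intro x y z w
    rw [G0, G1 U b 0 y, G1 U b 1 y, G2 U b 0 0 z, G2 U b 0 1 z, G2 U b 1 0 z, G2 U b 1 1 z,
      G3 U b 0 0 0 w, G3 U b 0 0 1 w, G3 U b 0 1 0 w, G3 U b 0 1 1 w,
      G3 U b 1 0 0 w, G3 U b 1 0 1 w, G3 U b 1 1 0 w, G3 U b 1 1 1 w]
  have v0000 := two_val U hU b 0 1 (by decide) 0 0 0 ![0, 0, 0, 0]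
    (by funext r; fin_cases r <;> simp)
  have v0001 := two_val U hU b 0 3 (by decide) 0 0 1 ![0, 0, 0, 1]
    (by funext r; fin_cases r <;> simp)
  have v0010 := two_val U hU b 0 2 (by decide) 0 0 1 ![0, 0, 1, 0]
    (by funext r; fin_cases r <;> simp)
  have v0011 := two_val U hU b 0 1 (by decide) 1 0 0 ![0, 0, 1, 1]
    (by funext r; fin_cases r <;> simp)
  have v0100 := two_val U hU b 0 1 (by decide) 0 0 1 ![0, 1, 0, 0]
    (by funext r; fin_cases r <;> simp)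
  have v0101 := two_val U hU b 0 2 (by decide) 1 0 0 ![0, 1, 0, 1]
    (by funext r; fin_cases r <;> simp)
  have v0110 := two_val U hU b 0 3 (by decide) 1 0 0 ![0, 1, 1, 0]
    (by funext r; fin_cases r <;> simp)
  have v0111 := two_val U hU b 0 1 (by decide) 1 0 1 ![0, 1, 1, 1]
    (by funext r; fin_cases r <;> simp)
  have v1000 := two_val U hU b 0 1 (by decide) 0 1 0 ![1, 0, 0, 0]
    (by funext r; fin_cases r <;> simp)
  have v1001 := two_val U hU b 0 3 (by decide) 0 1 1 ![1, 0, 0, 1]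
    (by funext r; fin_cases r <;> simp)
  have v1010 := two_val U hU b 0 2 (by decide) 0 1 1 ![1, 0, 1, 0]
    (by funext r; fin_cases r <;> simp)
  have v1011 := two_val U hU b 0 1 (by decide) 1 1 0 ![1, 0, 1, 1]
    (by funext r; fin_cases r <;> simp)
  have v1100 := two_val U hU b 0 1 (by decide) 0 1 1 ![1, 1, 0, 0]
    (by funext r; fin_cases r <;> simp)
  have v1101 := two_val U hU b 0 2 (by decide) 1 1 0 ![1, 1, 0, 1]
    (by funext r; fin_cases r <;> simp)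
  have v1110 := two_val U hU b 0 3 (by decide) 1 1 0 ![1, 1, 1, 0]
    (by funext r; fin_cases r <;> simp)
  have v1111 := two_val U hU b 0 1 (by decide) 1 1 1 ![1, 1, 1, 1]
    (by funext r; fin_cases r <;> simp)
  rw [e]
  unfold G
  rw [v0000, v0001, v0010, v0011, v0100, v0101, v0110, v0111, v1000, v1001, v1010, v1011, v1100, v1101, v1110, v1111]
  have c1 : ∀ q, mm U 0 q 1 0 = mm U 0 q 0 1 := fun q => mm_comm U 0 q 1 0
  have c2 : ∀ q, mm U 0 q 2 0 = mm U 0 q 0 2 := fun q => mm_comm U 0 q 2 0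
  have c3 : ∀ q, mm U 0 q 3 0 = mm U 0 q 0 3 := fun q => mm_comm U 0 q 3 0
  have c4 : ∀ q, mm U 0 q 2 1 = mm U 0 q 1 2 := fun q => mm_comm U 0 q 2 1
  have c5 : ∀ q, mm U 0 q 3 1 = mm U 0 q 1 3 := fun q => mm_comm U 0 q 3 1
  have c6 : ∀ q, mm U 0 q 3 2 = mm U 0 q 2 3 := fun q => mm_comm U 0 q 3 2
  unfold Ph
  rw [relP U hU 1 0 (by decide), relP U hU 1 1 (by decide), relP U hU 1 2 (by decide), relP U hU 1 3 (by decide), relP U hU 2 0 (by decide), relP U hU 2 1 (by decide), relP U hU 2 2 (by decide), relP U hU 2 3 (by decide), relP U hU 3 0 (by decide), relP U hU 3 1 (by decide), relP U hU 3 2 (by decide), relP U hU 3 3 (by decide)]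
  simp only [c1, c2, c3, c4, c5, c6, mm_self, Complex.ofReal_zero]
  rw [relC U hU 0 1 (by decide), relC U hU 0 2 (by decide), relC U hU 0 3 (by decide), relC U hU 1 2 (by decide), relC U hU 1 3 (by decide), relC U hU 2 3 (by decide)]
  rw [relT U hU 1 (by decide), relT U hU 2 (by decide), rel0 U hU]
  ring

end Pool.Agent.Helper2.GM
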