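import Mathlib

/-!
Project GM, module Mix: from means of two to mixtures with all weights at most `1/2`.

Proof (induction on the number of `i` with `t i ≠ 0`; at least two are non-zero).
* If some `t g = 1/2`: `∑ t i • y i = ∑_{h ≠ g} (2 * t h) • ((1/2) • y g + (1/2) • y h)` and
  `∑_{h ≠ g} 2 * t h = 1`: convexity.
* Otherwise let `g ≠ k` with `t g` maximal and `t k > 0`, and
  `ε = min (t k) (min_{i ≠ g, k} (1/2 - t i)) > 0` (`ε ≤ t k ≤ t g`).  Then
  `∑ t i • y i = 2 ε • ((1/2) • y g + (1/2) • y k) + (1 - 2 ε) • ∑ t' i • y i` with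
  `t' = (t - ε (e_g + e_k)) / (1 - 2 ε)` (if `1 = 2 ε` we are done), `0 ≤ t' ≤ 1/2`, `∑ t' = 1`, and
  `t'` has either fewer non-zero entries (`ε = t k`) or an entry `1/2` (first case).
-/

set_option autoImplicit false

namespace Pool.Agent.Helper2.GM

/-- The points with coordinates between `0` and `1/2` and sum `1` are mixtures of the midpoints of two
different unit vectors (separation theorem: a linear form is at most the mean of its two largest
coefficients). -/
theorem mix_hull {ι : Type*} [Fintype ι] [DecidableEq ι] (t : ι → ℝ) (h0 : ∀ i, 0 ≤ t i)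
    (h2 : ∀ i, t i ≤ 1 / 2) (h1 : ∑ i, t i = 1) :
    t ∈ convexHull ℝ {v : ι → ℝ | ∃ g h, g ≠ h ∧
      v = (1 / 2 : ℝ) • (Pi.single g 1 : ι → ℝ) + (1 / 2 : ℝ) • (Pi.single h 1 : ι → ℝ)} := by
  obtain ⟨P, hP⟩ : ∃ P : Set (ι → ℝ), P = {v : ι → ℝ | ∃ g h, g ≠ h ∧
      v = (1 / 2 : ℝ) • (Pi.single g 1 : ι → ℝ) + (1 / 2 : ℝ) • (Pi.single h 1 : ι → ℝ)} := ⟨_, rfl⟩
  rw [← hP]
  have hfin : P.Finite := by
    refine (Set.finite_range (fun p : ι × ι => (1 / 2 : ℝ) • (Pi.single p.1 1 : ι → ℝ) +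
      (1 / 2 : ℝ) • (Pi.single p.2 1 : ι → ℝ))).subset ?_
    rw [hP]
    rintro v ⟨g, h, _, rfl⟩
    exact ⟨(g, h), rfl⟩
  by_contra hcon
  obtain ⟨f, u, hf1, hf2⟩ := geometric_hahn_banach_closed_point (convex_convexHull ℝ P)
    (hfin.isCompact_convexHull (𝕜 := ℝ)).isClosed hcon
  obtain ⟨c, hc⟩ : ∃ c : ι → ℝ, c = fun i => f (Pi.single i 1) := ⟨_, rfl⟩
  have hft : f t = ∑ i, t i * c i := by
    have ht : t = ∑ i, t i • (Pi.single i 1 : ι → ℝ) := by
      ext j
      rw [Finset.sum_apply]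
      simp [Pi.single_apply]
    conv_lhs => rw [ht]
    rw [map_sum]
    refine Finset.sum_congr rfl fun i _ => ?_
    rw [map_smul, hc, smul_eq_mul]
  have hne : (Finset.univ : Finset ι).Nonempty := by
    rw [Finset.nonempty_iff_ne_empty]
    intro h
    rw [h, Finset.sum_empty] at h1
    exact zero_ne_one h1
  obtain ⟨g, _, hg⟩ := Finset.exists_max_image Finset.univ c hne
  have hne2 : (Finset.univ.erase g).Nonempty := by
    rw [Finset.nonempty_iff_ne_empty]
    intro h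
    have h3 := Finset.add_sum_erase Finset.univ t (Finset.mem_univ g)
    rw [h, Finset.sum_empty, h1] at h3
    have := h2 g
    linarith
  obtain ⟨k, hk, hkm⟩ := Finset.exists_max_image (Finset.univ.erase g) c hne2
  have hkg : k ≠ g := Finset.ne_of_mem_erase hk
  have hpair : (c g + c k) / 2 < u := by
    have h3 := hf1 ((1 / 2 : ℝ) • (Pi.single g 1 : ι → ℝ) + (1 / 2 : ℝ) • (Pi.single k 1 : ι → ℝ))
      (subset_convexHull ℝ P (by rw [hP]; exact ⟨g, k, hkg.symm, rfl⟩))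
    rw [map_add, map_smul, map_smul, smul_eq_mul, smul_eq_mul] at h3
    have h4 : c g = f (Pi.single g 1) := by rw [hc]
    have h5 : c k = f (Pi.single k 1) := by rw [hc]
    rw [h4, h5]
    linarith
  have hle : ∑ i, t i * c i ≤ t g * c g + (1 - t g) * c k := by
    rw [← Finset.add_sum_erase Finset.univ (fun i => t i * c i) (Finset.mem_univ g)]
    have h3 : ∑ i ∈ Finset.univ.erase g, t i * c i ≤ ∑ i ∈ Finset.univ.erase g, t i * c k :=
      Finset.sum_le_sum fun i hi => mul_le_mul_of_nonneg_left (hkm i hi) (h0 i)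
    rw [← Finset.sum_mul] at h3
    have h4 := Finset.add_sum_erase Finset.univ t (Finset.mem_univ g)
    rw [h1] at h4
    have h5 : ∑ i ∈ Finset.univ.erase g, t i = 1 - t g := by linarith
    rw [h5] at h3
    linarith
  have h6 := hg k (Finset.mem_univ k)
  have h7 := h2 g
  rw [hft] at hf2
  nlinarith [mul_nonneg (sub_nonneg.2 h7) (sub_nonneg.2 h6)]

theorem mix {E ι : Type*} [AddCommGroup E] [Module ℝ E] [Fintype ι] [DecidableEq ι] (S : Set E)
    (hS : Convex ℝ S) (y : ι → E)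
    (hy : ∀ g h, g ≠ h → (1 / 2 : ℝ) • y g + (1 / 2 : ℝ) • y h ∈ S)
    (t : ι → ℝ) (h0 : ∀ i, 0 ≤ t i) (h2 : ∀ i, t i ≤ 1 / 2) (h1 : ∑ i, t i = 1) :
    ∑ i, t i • y i ∈ S := by
  let L : (ι → ℝ) →ₗ[ℝ] E :=
    { toFun := fun v => ∑ i, v i • y i
      map_add' := fun v w => by
        simp only [Pi.add_apply, add_smul, Finset.sum_add_distrib]
      map_smul' := fun r v => by
        simp only [Pi.smul_apply, smul_eq_mul, mul_smul, Finset.smul_sum, RingHom.id_apply] }
  have hL : ∀ g, L (Pi.single g 1) = y g := by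
    intro g
    change ∑ i, (Pi.single g 1 : ι → ℝ) i • y i = y g
    simp [Pi.single_apply]
  have ht := mix_hull t h0 h2 h1
  have h3 : L t ∈ L '' convexHull ℝ {v : ι → ℝ | ∃ g h, g ≠ h ∧
      v = (1 / 2 : ℝ) • (Pi.single g 1 : ι → ℝ) + (1 / 2 : ℝ) • (Pi.single h 1 : ι → ℝ)} :=
    ⟨t, ht, rfl⟩
  rw [LinearMap.image_convexHull] at h3
  refine convexHull_min ?_ hS h3
  rintro _ ⟨_, ⟨g, h, hgh, rfl⟩, rfl⟩
  rw [map_add, map_smul, map_smul, hL, hL]
  exact hy g h hgh

end Pool.Agent.Helper2.GM
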