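import Pool.Agent.Helper2.GM.Cls
import Pool.Agent.Helper2.GM.Mix

/-!
Project GM: final assembly.
-/

set_option autoImplicit false

namespace Pool.Agent.Helper2.GM

open Matrix Complex Equiv

theorem InC_of_mem {f : Pt → ℂ} (hf : f ∈ HZ) : InC 1 f := by
  classical
  have hmin : HZ ⊆ {f : Pt → ℂ | InC 1 f} := by
    apply convexHull_min
    · rintro _ ⟨σ, rfl⟩
      refine ⟨Pi.single σ 1, fun τ => ?_, ?_, ?_⟩
      · by_cases h : τ = σ
        · subst h
          rw [Pi.single_eq_same]
          exact zero_le_one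
        · rw [Pi.single_eq_of_ne h]
      · rw [Finset.sum_pi_single']
        simp
      · funext x
        rw [Finset.sum_eq_single σ]
        · rw [Pi.single_eq_same]
          simp
        · intro τ _ h
          rw [Pi.single_eq_of_ne h]
          simp
        · intro h
          exact absurd (Finset.mem_univ _) h
    · rintro f ⟨g, h1, h2, h3⟩ f' ⟨g', h1', h2', h3'⟩ s t hs ht hst
      refine ⟨fun σ => s * g σ + t * g' σ, fun σ => add_nonneg (mul_nonneg hs (h1 σ))
        (mul_nonneg ht (h1' σ)), ?_, ?_⟩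
      · rw [Finset.sum_add_distrib, ← Finset.mul_sum, ← Finset.mul_sum, h2, h2', mul_one, mul_one,
          hst]
      · funext x
        rw [Pi.add_apply, Pi.smul_apply, Pi.smul_apply, h3, h3', Complex.real_smul,
          Complex.real_smul, Finset.mul_sum, Finset.mul_sum, ← Finset.sum_add_distrib]
        refine Finset.sum_congr rfl fun σ _ => ?_
        push_cast
        ring
  exact hmin hf

theorem det_eq (U V : M4) (hU : U ∈ unitaryGroup (Fin 4) ℂ) (a b : Fin 4 → ℂ) :
    (U * diagonal a * star U + V * diagonal b * star V).det = DD (star U * V) a b := by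
  have h2 : star U * U = 1 := mem_unitaryGroup_iff'.1 hU
  have h3 : U * star U = 1 := mem_unitaryGroup_iff.1 hU
  unfold DD
  have e1 : U * diagonal a * star U + V * diagonal b * star V
      = U * (diagonal a + star U * V * diagonal b * star (star U * V)) * star U := by
    rw [Matrix.mul_add, Matrix.add_mul]
    congr 1
    rw [star_mul, star_star]
    calc V * diagonal b * star V = (U * star U) * V * diagonal b * star V * (U * star U) := by
          rw [h3, Matrix.one_mul, Matrix.mul_one]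
      _ = _ := by simp only [Matrix.mul_assoc]
  rw [e1, Matrix.mul_assoc, Matrix.det_mul_comm, Matrix.mul_assoc, h2, Matrix.mul_one]

theorem star_unitary (U : M4) (hU : U ∈ unitaryGroup (Fin 4) ℂ) :
    star U ∈ unitaryGroup (Fin 4) ℂ := by
  rw [mem_unitaryGroup_iff, star_star]
  exact mem_unitaryGroup_iff'.1 hU

/-- mixtures of relabellings with weights at most `1/2` -/
theorem mixture (U V : M4) (hU : U ∈ unitaryGroup (Fin 4) ℂ) (hV : V ∈ unitaryGroup (Fin 4) ℂ)
    (t : Perm (Fin 4) → ℝ) (h0 : ∀ h, 0 ≤ t h ∧ t h ≤ 1 / 2) (h1 : ∑ h, t h = 1) :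
    ∃ w : Perm (Fin 4) → ℝ, (∀ σ, 0 ≤ w σ) ∧ ∑ σ, w σ = 1 ∧ ∀ a b : Fin 4 → ℂ,
      ∑ h, (t h : ℂ) * (U * diagonal (a ∘ h) * star U + V * diagonal b * star V).det
        = ∑ σ, (w σ : ℂ) * ∏ i, (a i + b (σ i)) := by
  have hW : star U * V ∈ unitaryGroup (Fin 4) ℂ := mul_mem (star_unitary U hU) hV
  have key := mix HZ convex_HZ (fun h : Perm (Fin 4) => (fun x : Pt =>
      DD (star U * V) (x.1 ∘ h) x.2)) (by
    intro g h hgh
    have h5 := two_mem (star U * V) hW g h hgh
    convert h5 using 1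
    funext x
    simp only [Pi.add_apply, Pi.smul_apply, Complex.real_smul]
    push_cast
    ring) t (fun h => (h0 h).1) (fun h => (h0 h).2) h1
  obtain ⟨w, hw0, hw1, hw2⟩ := InC_of_mem key
  refine ⟨w, hw0, hw1, fun a b => ?_⟩
  have h6 := congrFun hw2 (a, b)
  rw [Finset.sum_apply] at h6
  simp only [Pi.smul_apply, Complex.real_smul] at h6
  simp only [det_eq U V hU]
  exact h6

/-- half planes -/
theorem half (U V : M4) (hU : U ∈ unitaryGroup (Fin 4) ℂ) (hV : V ∈ unitaryGroup (Fin 4) ℂ)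
    (a b : Fin 4 → ℂ) (ω : ℂ) (M : ℝ)
    (hM : ∀ σ : Perm (Fin 4), (ω * ∏ i, (a i + b (σ i))).re ≤ M) (g h : Perm (Fin 4))
    (hg : M < (ω * (U * diagonal (a ∘ g) * star U + V * diagonal b * star V).det).re)
    (hh : M < (ω * (U * diagonal (a ∘ h) * star U + V * diagonal b * star V).det).re) :
    g = h := by
  by_contra hgh
  have hW : star U * V ∈ unitaryGroup (Fin 4) ℂ := mul_mem (star_unitary U hU) hV
  obtain ⟨w, hw0, hw1, hw2⟩ := InC_of_mem (two_mem (star U * V) hW g h hgh)
  have h6 := congrFun hw2 (a, b)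
  rw [det_eq U V hU] at hg hh
  have h7 : (ω * ((DD (star U * V) (a ∘ g) b + DD (star U * V) (a ∘ h) b) / 2)).re ≤ M := by
    have e : (DD (star U * V) (a ∘ g) b + DD (star U * V) (a ∘ h) b) / 2
        = ∑ σ, (w σ : ℂ) * Z σ (a, b) := h6
    rw [e, Finset.mul_sum, Complex.re_sum]
    calc ∑ σ, (ω * ((w σ : ℂ) * Z σ (a, b))).re = ∑ σ, w σ * (ω * Z σ (a, b)).re := by
          refine Finset.sum_congr rfl fun σ _ => ?_
          rw [show ω * ((w σ : ℂ) * Z σ (a, b)) = (w σ : ℂ) * (ω * Z σ (a, b)) by ring,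
            Complex.re_ofReal_mul]
      _ ≤ ∑ σ, w σ * M := Finset.sum_le_sum fun σ _ => mul_le_mul_of_nonneg_left (hM σ) (hw0 σ)
      _ = M := by rw [← Finset.sum_mul, hw1, one_mul]
  have h8 : (ω * ((DD (star U * V) (a ∘ g) b + DD (star U * V) (a ∘ h) b) / 2)).re
      = ((ω * DD (star U * V) (a ∘ g) b).re + (ω * DD (star U * V) (a ∘ h) b).re) / 2 := by
    rw [show ω * ((DD (star U * V) (a ∘ g) b + DD (star U * V) (a ∘ h) b) / 2)
      = ((1 / 2 : ℝ) : ℂ) * (ω * DD (star U * V) (a ∘ g) b + ω * DD (star U * V) (a ∘ h) b) by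
        push_cast; ring, Complex.re_ofReal_mul, Complex.add_re]
    ring
  rw [h8] at h7
  linarith

end Pool.Agent.Helper2.GM
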