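import Pool.Agent.Helper2.GM.Basic

/-!
Project GM, module Grp: from elements of order 2 and 3 to all nontrivial groups.

Proof.  (1) If `f ∈ HZ` and `h` is a permutation, then `x ↦ f (x.1 ∘ h, x.2)` is in `HZ`: it is the
image under a linear map which sends `Z σ` to `Z (σ * h⁻¹)` (reindex the product by `h⁻¹`).
(2) Every `c ≠ 1` in `Perm (Fin 4)` has order 2, 3 or 4 (`decide`), so a subgroup `H ≠ ⊥` contains
some `c ≠ 1` with `c * c = 1` or `c * c * c = 1`.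
(3) With `f c = mean over the powers of c`, `∑ h : H, DD (x.1 ∘ h) = ∑ h : H, f c (x.1 ∘ h, x.2)`
(reindex by `h ↦ h * c`; `(x.1 ∘ h) ∘ c = x.1 ∘ (h * c)`), and `HZ` is convex.
-/

set_option autoImplicit false

namespace Pool.Agent.Helper2.GM

open Matrix Complex Equiv

/-- Precomposition with a permutation of the first vector. -/
def T (h : Perm (Fin 4)) : (Pt → ℂ) →ₗ[ℝ] (Pt → ℂ) where
  toFun f := fun x => f (x.1 ∘ h, x.2)
  map_add' _ _ := rfl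
  map_smul' _ _ := rfl

theorem T_Z (h σ : Perm (Fin 4)) : T h (Z σ) = Z (σ * h⁻¹) := by
  funext x
  change ∏ i, (x.1 (h i) + x.2 (σ i)) = ∏ i, (x.1 i + x.2 ((σ * h⁻¹) i))
  rw [← Equiv.prod_comp h (fun i => x.1 i + x.2 ((σ * h⁻¹) i))]
  simp [Perm.mul_apply]

theorem T_mem {f : Pt → ℂ} (hf : f ∈ HZ) (h : Perm (Fin 4)) : T h f ∈ HZ := by
  have h1 : T h f ∈ T h '' HZ := ⟨f, hf, rfl⟩
  unfold HZ at h1
  rw [LinearMap.image_convexHull] at h1
  refine convexHull_mono ?_ h1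
  rintro _ ⟨_, ⟨σ, rfl⟩, rfl⟩
  exact ⟨σ * h⁻¹, (T_Z h σ).symm⟩

theorem mean_mem (U : M4) (H : Subgroup (Perm (Fin 4))) [DecidablePred (· ∈ H)] (F : Pt → ℂ)
    (hF : F ∈ HZ)
    (hs : ∀ x : Pt, ∑ h : H, F (x.1 ∘ (h : Perm (Fin 4)), x.2) =
      ∑ h : H, DD U (x.1 ∘ (h : Perm (Fin 4))) x.2) :
    (fun x : Pt => (Fintype.card H : ℂ)⁻¹ * ∑ h : H, DD U (x.1 ∘ (h : Perm (Fin 4))) x.2) ∈ HZ := by
  have h1 : ∑ h : H, ((Fintype.card H : ℝ)⁻¹) • T (h : Perm (Fin 4)) F ∈ HZ := by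
    apply convex_HZ.sum_mem
    · intro i _
      positivity
    · rw [Finset.sum_const, Finset.card_univ, nsmul_eq_mul, mul_inv_cancel₀]
      exact_mod_cast Fintype.card_ne_zero
    · intro i _
      exact T_mem hF _
  convert h1 using 1
  funext x
  rw [← hs, Finset.sum_apply, Finset.mul_sum]
  apply Finset.sum_congr rfl
  intro h _
  simp [T]

theorem perm_four : ∀ c : Perm (Fin 4), c * c = 1 ∨ c * c * c = 1 ∨ (c * c) * (c * c) = 1 := by
  decide +kernel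

theorem exists_elem {H : Subgroup (Perm (Fin 4))} (hH : H ≠ ⊥) :
    ∃ c ∈ H, c ≠ 1 ∧ (c * c = 1 ∨ c * c * c = 1) := by
  obtain ⟨⟨c, hc⟩, hc1'⟩ := H.ne_bot_iff_exists_ne_one.1 hH
  have hc1 : c ≠ 1 := fun h => hc1' (Subtype.ext h)
  by_cases h2 : c * c = 1
  · exact ⟨c, hc, hc1, Or.inl h2⟩
  rcases perm_four c with h | h | h
  · exact ⟨c, hc, hc1, Or.inl h⟩
  · exact ⟨c, hc, hc1, Or.inr h⟩
  · exact ⟨c * c, H.mul_mem hc hc, h2, Or.inl h⟩

theorem reindex (H : Subgroup (Perm (Fin 4))) [DecidablePred (· ∈ H)] (G : Perm (Fin 4) → ℂ)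
    {c : Perm (Fin 4)} (hc : c ∈ H) : ∑ h : H, G ((h : Perm (Fin 4)) * c) = ∑ h : H, G h :=
  Equiv.sum_comp (Equiv.mulRight (⟨c, hc⟩ : H)) (fun h : H => G h)

theorem sum_two (H : Subgroup (Perm (Fin 4))) [DecidablePred (· ∈ H)] (G : Perm (Fin 4) → ℂ)
    {c : Perm (Fin 4)} (hc : c ∈ H) :
    ∑ h : H, (G h + G ((h : Perm (Fin 4)) * c)) / 2 = ∑ h : H, G h := by
  rw [← Finset.sum_div, Finset.sum_add_distrib, reindex H G hc]
  ring

theorem sum_three (H : Subgroup (Perm (Fin 4))) [DecidablePred (· ∈ H)] (G : Perm (Fin 4) → ℂ)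
    {c : Perm (Fin 4)} (hc : c ∈ H) :
    ∑ h : H, (G h + G ((h : Perm (Fin 4)) * c) + G ((h : Perm (Fin 4)) * (c * c))) / 3 =
      ∑ h : H, G h := by
  rw [← Finset.sum_div, Finset.sum_add_distrib, Finset.sum_add_distrib, reindex H G hc,
    reindex H G (H.mul_mem hc hc)]
  ring

theorem group_mean (U : M4)
    (h2 : ∀ c : Perm (Fin 4), c ≠ 1 → c * c = 1 →
      (fun x : Pt => (DD U x.1 x.2 + DD U (x.1 ∘ c) x.2) / 2) ∈ HZ)
    (h3 : ∀ c : Perm (Fin 4), c ≠ 1 → c * c * c = 1 →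
      (fun x : Pt => (DD U x.1 x.2 + DD U (x.1 ∘ c) x.2 +
        DD U (x.1 ∘ (c * c : Perm (Fin 4))) x.2) / 3) ∈ HZ)
    (H : Subgroup (Perm (Fin 4))) [DecidablePred (· ∈ H)] (hH : H ≠ ⊥) :
    (fun x : Pt => (Fintype.card H : ℂ)⁻¹ * ∑ h : H, DD U (x.1 ∘ (h : Perm (Fin 4))) x.2) ∈ HZ := by
  obtain ⟨c, hcH, hc1, hc | hc⟩ := exists_elem hH
  · refine mean_mem U H _ (h2 c hc1 hc) ?_
    intro x
    have h := sum_two H (fun p => DD U (x.1 ∘ p) x.2) hcH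
    simpa only [Perm.coe_mul, Function.comp_assoc] using h
  · refine mean_mem U H _ (h3 c hc1 hc) ?_
    intro x
    have h := sum_three H (fun p => DD U (x.1 ∘ p) x.2) hcH
    simpa only [Perm.coe_mul, Function.comp_assoc] using h

end Pool.Agent.Helper2.GM
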