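import Pool.Agent.Helper2.GM.Rel

/-!
Project GM: polarisation identities and the products in explicit form.
-/

set_option autoImplicit false

namespace Pool.Agent.Helper2.GM

open Matrix Complex Equiv

/-- explicit products -/
def zz (m0 m1 m2 m3 : Fin 4) : Pt → ℂ := fun x =>
  (x.1 0 + x.2 m0) * (x.1 1 + x.2 m1) * (x.1 2 + x.2 m2) * (x.1 3 + x.2 m3)

theorem zz_mem (m0 m1 m2 m3 : Fin 4) (h : Function.Injective ![m0, m1, m2, m3]) :
    zz m0 m1 m2 m3 ∈ HZ := by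
  have hb : Function.Bijective ![m0, m1, m2, m3] := (Finite.injective_iff_bijective).1 h
  have e : zz m0 m1 m2 m3 = Z (Equiv.ofBijective _ hb) := by
    funext x
    unfold zz Z
    rw [Fin.prod_univ_four]
    simp [Equiv.ofBijective_apply]
  rw [e]
  exact Z_mem _

/-- midpoint of two members -/
theorem mid_mem {f g : Pt → ℂ} (hf : f ∈ HZ) (hg : g ∈ HZ) :
    (fun x => (f x + g x) / 2) ∈ HZ := by
  have h := convex_HZ hf hg (by norm_num : (0 : ℝ) ≤ 1 / 2) (by norm_num : (0 : ℝ) ≤ 1 / 2)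
    (by norm_num)
  have e : (fun x => (f x + g x) / 2) = (1 / 2 : ℝ) • f + (1 / 2 : ℝ) • g := by
    funext x
    simp only [Pi.add_apply, Pi.smul_apply, Complex.real_smul]
    push_cast
    ring
  rw [e]
  exact h

/-- `DD` as a function of four variables -/
noncomputable def G (U : M4) (b : Fin 4 → ℂ) (a0 a1 a2 a3 : ℂ) : ℂ := DD U ![a0, a1, a2, a3] b

theorem G0 (U : M4) (b : Fin 4 → ℂ) (a0 a1 a2 a3 : ℂ) :
    G U b a0 a1 a2 a3 = (1 - a0) * G U b 0 a1 a2 a3 + a0 * G U b 1 a1 a2 a3 := by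
  have h := DD_affine U ![a0, a1, a2, a3] b 0 a0
  have e : ∀ t, Function.update ![a0, a1, a2, a3] 0 t = ![t, a1, a2, a3] := by
    intro t
    funext i
    fin_cases i <;> simp [Function.update]
  simp only [e] at h
  exact h

theorem G1 (U : M4) (b : Fin 4 → ℂ) (a0 a1 a2 a3 : ℂ) :
    G U b a0 a1 a2 a3 = (1 - a1) * G U b a0 0 a2 a3 + a1 * G U b a0 1 a2 a3 := by
  have h := DD_affine U ![a0, a1, a2, a3] b 1 a1
  have e : ∀ t, Function.update ![a0, a1, a2, a3] 1 t = ![a0, t, a2, a3] := by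
    intro t
    funext i
    fin_cases i <;> simp [Function.update]
  simp only [e] at h
  exact h

theorem G2 (U : M4) (b : Fin 4 → ℂ) (a0 a1 a2 a3 : ℂ) :
    G U b a0 a1 a2 a3 = (1 - a2) * G U b a0 a1 0 a3 + a2 * G U b a0 a1 1 a3 := by
  have h := DD_affine U ![a0, a1, a2, a3] b 2 a2
  have e : ∀ t, Function.update ![a0, a1, a2, a3] 2 t = ![a0, a1, t, a3] := by
    intro t
    funext i
    fin_cases i <;> simp [Function.update]
  simp only [e] at h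
  exact h

theorem G3 (U : M4) (b : Fin 4 → ℂ) (a0 a1 a2 a3 : ℂ) :
    G U b a0 a1 a2 a3 = (1 - a3) * G U b a0 a1 a2 0 + a3 * G U b a0 a1 a2 1 := by
  have h := DD_affine U ![a0, a1, a2, a3] b 3 a3
  have e : ∀ t, Function.update ![a0, a1, a2, a3] 3 t = ![a0, a1, a2, t] := by
    intro t
    funext i
    fin_cases i <;> simp [Function.update]
  simp only [e] at h
  exact h

/-- polarisation in the first two variables -/
theorem pol2 (U : M4) (b : Fin 4 → ℂ) (a0 a1 a2 a3 : ℂ) :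
    (G U b a0 a1 a2 a3 + G U b a1 a0 a2 a3) / 2
      = 2 * G U b ((a0 + a1) / 2) ((a0 + a1) / 2) a2 a3
        - (G U b a0 a0 a2 a3 + G U b a1 a1 a2 a3) / 2 := by
  have e : ∀ x y : ℂ, G U b x y a2 a3
      = (1 - x) * ((1 - y) * G U b 0 0 a2 a3 + y * G U b 0 1 a2 a3)
        + x * ((1 - y) * G U b 1 0 a2 a3 + y * G U b 1 1 a2 a3) := by
    intro x y
    rw [G0, G1 U b 0 y, G1 U b 1 y]
  rw [e a0 a1, e a1 a0, e ((a0 + a1) / 2) ((a0 + a1) / 2), e a0 a0, e a1 a1]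
  ring

/-- polarisation in the first three variables -/
theorem pol3 (U : M4) (b : Fin 4 → ℂ) (a0 a1 a2 a3 : ℂ) :
    (G U b a0 a1 a2 a3 + G U b a1 a2 a0 a3 + G U b a2 a0 a1 a3) / 3
      = (27 * G U b ((a0 + a1 + a2) / 3) ((a0 + a1 + a2) / 3) ((a0 + a1 + a2) / 3) a3
        - 8 * (G U b ((a0 + a1) / 2) ((a0 + a1) / 2) ((a0 + a1) / 2) a3
          + G U b ((a1 + a2) / 2) ((a1 + a2) / 2) ((a1 + a2) / 2) a3
          + G U b ((a0 + a2) / 2) ((a0 + a2) / 2) ((a0 + a2) / 2) a3)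
        + (G U b a0 a0 a0 a3 + G U b a1 a1 a1 a3 + G U b a2 a2 a2 a3)) / 6 := by
  have e : ∀ x y z : ℂ, G U b x y z a3
      = (1 - x) * ((1 - y) * ((1 - z) * G U b 0 0 0 a3 + z * G U b 0 0 1 a3)
          + y * ((1 - z) * G U b 0 1 0 a3 + z * G U b 0 1 1 a3))
        + x * ((1 - y) * ((1 - z) * G U b 1 0 0 a3 + z * G U b 1 0 1 a3)
          + y * ((1 - z) * G U b 1 1 0 a3 + z * G U b 1 1 1 a3)) := by
    intro x y z
    rw [G0, G1 U b 0 y, G1 U b 1 y, G2 U b 0 0 z, G2 U b 0 1 z, G2 U b 1 0 z, G2 U b 1 1 z]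
  rw [e a0 a1 a2, e a1 a2 a0, e a2 a0 a1,
    e ((a0 + a1 + a2) / 3) ((a0 + a1 + a2) / 3) ((a0 + a1 + a2) / 3),
    e ((a0 + a1) / 2) ((a0 + a1) / 2) ((a0 + a1) / 2),
    e ((a1 + a2) / 2) ((a1 + a2) / 2) ((a1 + a2) / 2),
    e ((a0 + a2) / 2) ((a0 + a2) / 2) ((a0 + a2) / 2),
    e a0 a0 a0, e a1 a1 a1, e a2 a2 a2]
  ring

/-- polarisation in the two pairs of variables, with the mixed difference -/
theorem pol22 (U : M4) (b : Fin 4 → ℂ) (a0 a1 a2 a3 : ℂ) :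
    (G U b a0 a1 a2 a3 + G U b a1 a0 a3 a2) / 2
      = (2 * (2 * G U b ((a0 + a1) / 2) ((a0 + a1) / 2) ((a2 + a3) / 2) ((a2 + a3) / 2)
            - (G U b ((a0 + a1) / 2) ((a0 + a1) / 2) a2 a2
              + G U b ((a0 + a1) / 2) ((a0 + a1) / 2) a3 a3) / 2)
          - ((2 * G U b a0 a0 ((a2 + a3) / 2) ((a2 + a3) / 2)
              - (G U b a0 a0 a2 a2 + G U b a0 a0 a3 a3) / 2)
            + (2 * G U b a1 a1 ((a2 + a3) / 2) ((a2 + a3) / 2)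
              - (G U b a1 a1 a2 a2 + G U b a1 a1 a3 a3) / 2)) / 2)
        + (a0 - a1) * (a2 - a3) / 4
          * (G U b 1 0 1 0 + G U b 0 1 0 1 - G U b 1 0 0 1 - G U b 0 1 1 0) := by
  have e : ∀ x y z w : ℂ, G U b x y z w
      = (1 - x) * ((1 - y) * ((1 - z) * ((1 - w) * G U b 0 0 0 0 + w * G U b 0 0 0 1)
            + z * ((1 - w) * G U b 0 0 1 0 + w * G U b 0 0 1 1))
          + y * ((1 - z) * ((1 - w) * G U b 0 1 0 0 + w * G U b 0 1 0 1)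
            + z * ((1 - w) * G U b 0 1 1 0 + w * G U b 0 1 1 1)))
        + x * ((1 - y) * ((1 - z) * ((1 - w) * G U b 1 0 0 0 + w * G U b 1 0 0 1)
            + z * ((1 - w) * G U b 1 0 1 0 + w * G U b 1 0 1 1))
          + y * ((1 - z) * ((1 - w) * G U b 1 1 0 0 + w * G U b 1 1 0 1)
            + z * ((1 - w) * G U b 1 1 1 0 + w * G U b 1 1 1 1))) := by
    intro x y z w
    rw [G0, G1 U b 0 y, G1 U b 1 y, G2 U b 0 0 z, G2 U b 0 1 z, G2 U b 1 0 z, G2 U b 1 1 z,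
      G3 U b 0 0 0 w, G3 U b 0 0 1 w, G3 U b 0 1 0 w, G3 U b 0 1 1 w,
      G3 U b 1 0 0 w, G3 U b 1 0 1 w, G3 U b 1 1 0 w, G3 U b 1 1 1 w]
  rw [e a0 a1 a2 a3, e a1 a0 a3 a2,
    e ((a0 + a1) / 2) ((a0 + a1) / 2) ((a2 + a3) / 2) ((a2 + a3) / 2),
    e ((a0 + a1) / 2) ((a0 + a1) / 2) a2 a2, e ((a0 + a1) / 2) ((a0 + a1) / 2) a3 a3,
    e a0 a0 ((a2 + a3) / 2) ((a2 + a3) / 2), e a0 a0 a2 a2, e a0 a0 a3 a3,
    e a1 a1 ((a2 + a3) / 2) ((a2 + a3) / 2), e a1 a1 a2 a2, e a1 a1 a3 a3]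
  ring

end Pool.Agent.Helper2.GM
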