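import Pool.Agent.Helper2.GM.Basic

/-!
Project GM: the values of `DD` at arguments with at most three different entries.
-/

set_option autoImplicit false

namespace Pool.Agent.Helper2.GM

open Matrix Complex Equiv

/-- squared moduli of the entries -/
noncomputable def P (U : M4) (i j : Fin 4) : ℝ := normSq (U i j)

/-- squared moduli of the 2×2 minors -/
noncomputable def mm (U : M4) (i k j l : Fin 4) : ℝ := normSq (U i j * U k l - U i l * U k j)

theorem P_nonneg (U : M4) (i j : Fin 4) : 0 ≤ P U i j := normSq_nonneg _

theorem mm_nonneg (U : M4) (i k j l : Fin 4) : 0 ≤ mm U i k j l := normSq_nonneg _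

theorem mm_comm (U : M4) (i k j l : Fin 4) : mm U i k j l = mm U i k l j := by
  unfold mm
  rw [← normSq_neg]
  congr 1
  ring

theorem mm_self (U : M4) (i k j : Fin 4) : mm U i k j j = 0 := by
  unfold mm
  rw [sub_self, map_zero]

theorem DD_eq (U : M4) (hU : U ∈ unitaryGroup (Fin 4) ℂ) (a b : Fin 4 → ℂ) :
    DD U a b = (star U * diagonal a * U + diagonal b).det := by
  have h2 : star U * U = 1 := mem_unitaryGroup_iff'.1 hU
  have h3 : U * star U = 1 := mem_unitaryGroup_iff.1 hU
  unfold DD
  have e1 : diagonal a + U * diagonal b * star U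
      = U * (star U * diagonal a * U + diagonal b) * star U := by
    rw [Matrix.mul_add, Matrix.add_mul]
    congr 1
    calc diagonal a = (U * star U) * diagonal a * (U * star U) := by
          rw [h3, Matrix.one_mul, Matrix.mul_one]
      _ = _ := by simp only [Matrix.mul_assoc]
  rw [e1, Matrix.mul_assoc, Matrix.det_mul_comm, Matrix.mul_assoc, h2, Matrix.mul_one]

theorem DD_two (U : M4) (hU : U ∈ unitaryGroup (Fin 4) ℂ) (i k : Fin 4) (hik : i ≠ k)
    (t x y : ℂ) (b : Fin 4 → ℂ) :
    DD U (fun r => if r = i then x else if r = k then y else t) b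
      = (t + b 0) * (t + b 1) * (t + b 2) * (t + b 3)
        + (x - t) * (P U i 0 * ((t + b 1) * (t + b 2) * (t + b 3))
          + P U i 1 * ((t + b 0) * (t + b 2) * (t + b 3))
          + P U i 2 * ((t + b 0) * (t + b 1) * (t + b 3))
          + P U i 3 * ((t + b 0) * (t + b 1) * (t + b 2)))
        + (y - t) * (P U k 0 * ((t + b 1) * (t + b 2) * (t + b 3))
          + P U k 1 * ((t + b 0) * (t + b 2) * (t + b 3))
          + P U k 2 * ((t + b 0) * (t + b 1) * (t + b 3))
          + P U k 3 * ((t + b 0) * (t + b 1) * (t + b 2)))
        + (x - t) * (y - t) * (mm U i k 0 1 * ((t + b 2) * (t + b 3))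
          + mm U i k 0 2 * ((t + b 1) * (t + b 3))
          + mm U i k 0 3 * ((t + b 1) * (t + b 2))
          + mm U i k 1 2 * ((t + b 0) * (t + b 3))
          + mm U i k 1 3 * ((t + b 0) * (t + b 2))
          + mm U i k 2 3 * ((t + b 0) * (t + b 1))) := by
  rw [DD_eq U hU]
  have h2 : star U * U = 1 := mem_unitaryGroup_iff'.1 hU
  have hM : star U * diagonal (fun r => if r = i then x else if r = k then y else t) * U
      + diagonal b
      = Matrix.of fun j l : Fin 4 => (if j = l then t + b j else 0)
        + (x - t) * (star (U i j) * U i l) + (y - t) * (star (U k j) * U k l) := by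
    ext j l
    rw [Matrix.add_apply, Matrix.mul_apply, Matrix.of_apply]
    have e1 : ∀ r : Fin 4, (star U * diagonal (fun r => if r = i then x else if r = k then y else t))
        j r * U r l = t * (star U j r * U r l)
          + (if r = i then (x - t) * (star (U r j) * U r l) else 0)
          + (if r = k then (y - t) * (star (U r j) * U r l) else 0) := by
      intro r
      rw [Matrix.mul_diagonal, Matrix.star_apply]
      by_cases h1 : r = i
      · subst h1
        simp [hik]
        ring
      · by_cases h3 : r = k
        · subst h3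
          simp [h1]
          ring
        · simp [h1, h3]
          ring
    rw [Finset.sum_congr rfl (fun r _ => e1 r), Finset.sum_add_distrib, Finset.sum_add_distrib,
      Finset.sum_ite_eq', Finset.sum_ite_eq', ← Finset.mul_sum, ← Matrix.mul_apply, h2]
    simp only [Finset.mem_univ, if_true]
    by_cases hjl : j = l
    · subst hjl
      rw [Matrix.one_apply_eq, diagonal_apply_eq, if_pos rfl]
      ring
    · rw [Matrix.one_apply_ne hjl, diagonal_apply_ne _ hjl, if_neg hjl]
      ring
  rw [hM, det_rank_two]
  have hP : ∀ i j : Fin 4, star (U i j) * U i j = (P U i j : ℂ) := by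
    intro i j
    unfold P
    rw [Complex.normSq_eq_conj_mul_self]
    rfl
  have hmm : ∀ j l : Fin 4, (star (U i j) * star (U k l) - star (U i l) * star (U k j))
      * (U i j * U k l - U i l * U k j) = (mm U i k j l : ℂ) := by
    intro j l
    unfold mm
    rw [Complex.normSq_eq_conj_mul_self]
    simp only [map_sub, map_mul]
    rfl
  simp only [hP, hmm]

end Pool.Agent.Helper2.GM
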