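import Pool.Agent.Helper2.GM.Rank

/-!
Project GM: relations between the squared moduli of entries and 2×2 minors of a unitary matrix.
-/

set_option autoImplicit false

namespace Pool.Agent.Helper2.GM

open Matrix Complex Equiv
open scoped ComplexConjugate

theorem lagrange (J : Finset (Fin 4)) (u w : Fin 4 → ℂ) :
    ∑ j ∈ J, ∑ l ∈ J, normSq (u j * w l - u l * w j)
      = 2 * ((∑ j ∈ J, normSq (u j)) * (∑ l ∈ J, normSq (w l)))
        - 2 * normSq (∑ j ∈ J, u j * conj (w j)) := by
  have e1 : ∀ j l : Fin 4, normSq (u j * w l - u l * w j)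
      = normSq (u j) * normSq (w l) + normSq (u l) * normSq (w j)
        - 2 * ((u j * conj (w j)) * conj (u l * conj (w l))).re := by
    intro j l
    rw [Complex.normSq_sub, Complex.normSq_mul, Complex.normSq_mul]
    congr 3
    simp only [map_mul, Complex.conj_conj]
    ring
  simp only [e1, Finset.sum_sub_distrib, Finset.sum_add_distrib, ← Finset.mul_sum,
    ← Finset.sum_mul, ← Complex.re_sum, ← map_sum, Complex.mul_conj, Complex.ofReal_re]
  ring

theorem row_norm (U : M4) (hU : U ∈ unitaryGroup (Fin 4) ℂ) (i : Fin 4) : ∑ j, P U i j = 1 := by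
  have h3 : U * star U = 1 := mem_unitaryGroup_iff.1 hU
  have h4 := congrFun (congrFun h3 i) i
  rw [Matrix.mul_apply, Matrix.one_apply_eq] at h4
  have h5 : ((∑ j, P U i j : ℝ) : ℂ) = 1 := by
    rw [← h4, Complex.ofReal_sum]
    refine Finset.sum_congr rfl fun j _ => ?_
    unfold P
    rw [Matrix.star_apply, ← Complex.mul_conj]
    rfl
  exact_mod_cast h5

theorem col_norm (U : M4) (hU : U ∈ unitaryGroup (Fin 4) ℂ) (j : Fin 4) : ∑ i, P U i j = 1 := by
  have h3 : star U * U = 1 := mem_unitaryGroup_iff'.1 hU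
  have h4 := congrFun (congrFun h3 j) j
  rw [Matrix.mul_apply, Matrix.one_apply_eq] at h4
  have h5 : ((∑ i, P U i j : ℝ) : ℂ) = 1 := by
    rw [← h4, Complex.ofReal_sum]
    refine Finset.sum_congr rfl fun i _ => ?_
    unfold P
    rw [Matrix.star_apply, Complex.normSq_eq_conj_mul_self]
    rfl
  exact_mod_cast h5

theorem row_orth (U : M4) (hU : U ∈ unitaryGroup (Fin 4) ℂ) (i k : Fin 4) (hik : i ≠ k) :
    ∑ j, U i j * conj (U k j) = 0 := by
  have h3 : U * star U = 1 := mem_unitaryGroup_iff.1 hU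
  have h4 := congrFun (congrFun h3 i) k
  rw [Matrix.mul_apply, Matrix.one_apply_ne hik] at h4
  rw [← h4]
  refine Finset.sum_congr rfl fun j _ => ?_
  rw [Matrix.star_apply]
  rfl

theorem col_orth (U : M4) (hU : U ∈ unitaryGroup (Fin 4) ℂ) (j l : Fin 4) (hjl : j ≠ l) :
    ∑ i, U i j * conj (U i l) = 0 := by
  have h3 : star U * U = 1 := mem_unitaryGroup_iff'.1 hU
  have h4 := congrFun (congrFun h3 l) j
  rw [Matrix.mul_apply, Matrix.one_apply_ne hjl.symm] at h4
  rw [← h4]
  refine Finset.sum_congr rfl fun i _ => ?_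
  rw [Matrix.star_apply, mul_comm]
  rfl

/-- the condition of Landau's theorem -/
theorem sum_mm_le (U : M4) (hU : U ∈ unitaryGroup (Fin 4) ℂ) (i k : Fin 4) (J : Finset (Fin 4)) :
    ∑ j ∈ J, ∑ l ∈ J, mm U i k j l ≤ 2 * ∑ j ∈ J, P U i j := by
  have h1 := lagrange J (U i) (U k)
  have h2 : ∑ l ∈ J, normSq (U k l) ≤ 1 := by
    have := row_norm U hU k
    calc ∑ l ∈ J, normSq (U k l) ≤ ∑ l, normSq (U k l) :=
          Finset.sum_le_sum_of_subset_of_nonneg (Finset.subset_univ _)
            (fun _ _ _ => normSq_nonneg _)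
      _ = 1 := this
  have h3 : 0 ≤ ∑ j ∈ J, normSq (U i j) := Finset.sum_nonneg fun _ _ => normSq_nonneg _
  have h4 : 0 ≤ normSq (∑ j ∈ J, U i j * conj (U k j)) := normSq_nonneg _
  unfold mm P
  rw [h1]
  nlinarith [mul_le_mul_of_nonneg_left h2 h3]

theorem sum_mm_univ (U : M4) (hU : U ∈ unitaryGroup (Fin 4) ℂ) (i k : Fin 4) (hik : i ≠ k) :
    ∑ j, ∑ l, mm U i k j l = 2 := by
  have h1 := lagrange Finset.univ (U i) (U k)
  rw [row_orth U hU i k hik, map_zero] at h1
  have h2 := row_norm U hU i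
  have h3 := row_norm U hU k
  unfold P at h2 h3
  rw [h2, h3] at h1
  unfold mm
  rw [h1]
  ring

/-- row sums of the pair masses -/
theorem sum_mm_row (U : M4) (hU : U ∈ unitaryGroup (Fin 4) ℂ) (i k : Fin 4) (hik : i ≠ k)
    (j : Fin 4) : ∑ l, mm U i k j l = P U i j + P U k j := by
  have h2 := row_norm U hU i
  have h3 := row_norm U hU k
  have h4 := row_orth U hU i k hik
  unfold P at h2 h3
  have e1 : ∀ l : Fin 4, mm U i k j l
      = normSq (U i j) * normSq (U k l) + normSq (U i l) * normSq (U k j)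
        - 2 * ((U i j * conj (U k j)) * conj (U i l * conj (U k l))).re := by
    intro l
    unfold mm
    rw [Complex.normSq_sub, Complex.normSq_mul, Complex.normSq_mul]
    congr 3
    simp only [map_mul, Complex.conj_conj]
    ring
  simp only [e1, Finset.sum_sub_distrib, Finset.sum_add_distrib, ← Finset.mul_sum,
    ← Finset.sum_mul, ← Complex.re_sum, ← map_sum, h2, h3, h4, map_zero, mul_zero,
    Complex.zero_re]
  unfold P
  ring

/-- column sums of the pair masses -/
theorem sum_mm_col (U : M4) (hU : U ∈ unitaryGroup (Fin 4) ℂ) (i j l : Fin 4) (hjl : j ≠ l) :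
    ∑ k, mm U i k j l = P U i j + P U i l := by
  have h2 := col_norm U hU j
  have h3 := col_norm U hU l
  have h4 := col_orth U hU j l hjl
  unfold P at h2 h3
  have e1 : ∀ k : Fin 4, mm U i k j l
      = normSq (U i j) * normSq (U k l) + normSq (U i l) * normSq (U k j)
        - 2 * ((U i j * conj (U i l)) * conj (U k j * conj (U k l))).re := by
    intro k
    unfold mm
    rw [Complex.normSq_sub, Complex.normSq_mul, Complex.normSq_mul]
    congr 3
    simp only [map_mul, Complex.conj_conj]
    ring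
  simp only [e1, Finset.sum_sub_distrib, Finset.sum_add_distrib, ← Finset.mul_sum,
    ← Finset.sum_mul, ← Complex.re_sum, ← map_sum, h2, h3, h4, map_zero, mul_zero,
    Complex.zero_re]
  unfold P
  ring

end Pool.Agent.Helper2.GM
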